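import Pool.Agent.Lib_helper5.P4Rel

/-!
The system of conditions on the parameters of the family of period four.
-/

namespace Pool.Agent.Lib_helper5.K4

open Finset LK Pool.Agent.LibH4 Pool.Agent.LibH4.Ker Pool.Agent.LibH4.T6 Pool.Agent.LibH4.KF
open Pool.Agent.Lib_helper5.K5 (In)

/-- all relations -/
def AllRel (Q : ℕ) (a b t : ℤ) : Prop :=
  ∀ (n1 n2 n3 N T1 T2 T3 : ℕ) [NeZero n1] [NeZero n2] [NeZero n3] [NeZero (n1 * n2)]
    [NeZero (n1 * n2 * n3)], relOk n1 n2 n3 N T1 T2 T3 = true → tabCk n1 N T1 = true →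
    tabCk n2 N T2 = true → tabCk n3 N T3 = true → N % 2 = 1 →
    (n1 * n2 * n3 * N) ∣ Q ^ 6 →
    LK.Rel N (tri (tabc n1 N T1) (tabc n2 N T2) (tabc n3 N T3)) (J4 a b t)

/-- the system of conditions -/
structure Sys (Q : ℕ) (a b t : ℤ) : Prop where
  oa : a % 2 = 1
  ob : b % 2 = 1
  ot : t % 2 = 1
  inr : ∀ p : ℕ, p.Prime → p ≠ 2 → p ∣ Q → In p (zd a b t)
  rel : AllRel Q a b t

lemma Sys.neg {Q : ℕ} {a b t : ℤ} (h : Sys Q a b t) : Sys Q (-a) (-b) t where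
  oa := by have := h.oa; omega
  ob := by have := h.ob; omega
  ot := h.ot
  inr := by rw [zd_neg]; exact h.inr
  rel := fun n1 n2 n3 N T1 T2 T3 _ _ _ _ _ h1 h2 h3 h4 h5 h6 =>
    Rel_neg _ (h.rel n1 n2 n3 N T1 T2 T3 h1 h2 h3 h4 h5 h6)

lemma Sys.mono {Q Q' : ℕ} {a b t : ℤ} (h : Sys Q a b t) (hQ : Q' ∣ Q) : Sys Q' a b t where
  oa := h.oa
  ob := h.ob
  ot := h.ot
  inr := fun p hp hp2 hd => h.inr p hp hp2 (hd.trans hQ)
  rel := fun n1 n2 n3 N T1 T2 T3 _ _ _ _ _ h1 h2 h3 h4 h5 h6 =>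
    h.rel n1 n2 n3 N T1 T2 T3 h1 h2 h3 h4 h5 (h6.trans (pow_dvd_pow_of_dvd hQ 6))

/-- meaning of `relOk` -/
lemma relOk_spec {n1 n2 n3 N T1 T2 T3 : ℕ} [NeZero n1] [NeZero n2] [NeZero n3]
    [NeZero (n1 * n2)] [NeZero (n1 * n2 * n3)] (hN : 0 < N)
    (h : relOk n1 n2 n3 N T1 T2 T3 = true) (h1 : tabCk n1 N T1 = true)
    (h2 : tabCk n2 N T2 = true) (h3 : tabCk n3 N T3 = true) :
    (∀ x, tri (tabc n1 N T1) (tabc n2 N T2) (tabc n3 N T3) (-x) =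
      - tri (tabc n1 N T1) (tabc n2 N T2) (tabc n3 N T3) x) ∧
    (∑ u ∈ range (n1 * n2 * n3), (u : ZMod N) *
      tri (tabc n1 N T1) (tabc n2 N T2) (tabc n3 N T3) (u : ZMod (n1 * n2 * n3))) *
      ((n1 * n2 * n3 : ℕ) : ZMod N) = 0 := by
  unfold relOk at h
  rw [strict_eq] at h
  obtain ⟨ha, hb⟩ := andB_spec h
  have hc := tri_char (n1 := n1) (n2 := n2) (n3 := n3) (tabCk_char h1) (tabCk_char h2)
    (tabCk_char h3)
  have hq : 0 < n1 * n2 * n3 := Nat.pos_of_ne_zero (NeZero.ne _)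
  have hNe : NeZero N := ⟨hN.ne'⟩
  refine ⟨?_, ?_⟩
  · have e1 : chi3 n1 n2 n3 N T1 T2 T3 (n1 * n2 * n3 - 1) = N - 1 := Nat.eq_of_beq_eq_true ha
    have e2 := congrArg (fun x : ℕ => (x : ZMod N)) e1
    simp only [chi3_cast] at e2
    rw [Pool.Agent.Lib_helper5.K5.cast_pred, Pool.Agent.Lib_helper5.K5.cast_pred] at e2
    intro x
    have : -x = (-1) * x := by ring
    rw [this, hc.mul, e2]
    ring
  · have e1 : (sumR (fun u => u * chi3 n1 n2 n3 N T1 T2 T3 u) (n1 * n2 * n3)) * (n1 * n2 * n3) % N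
      = 0 := Nat.eq_of_beq_eq_true hb
    have e2 := congrArg (fun x : ℕ => (x : ZMod N)) e1
    simp only [ZMod.natCast_mod] at e2
    rw [sumR_eq, Nat.cast_mul, Nat.cast_sum] at e2
    rw [Nat.cast_zero] at e2
    rw [← e2]
    congr 1
    apply Finset.sum_congr rfl
    intro u _
    rw [Nat.cast_mul, chi3_cast]


lemma sys_of {a b B : ℕ} {m r : ℤ} (h : E4.Par a b B m r) (hm2 : m % 2 = 1) (hB2 : B % 2 = 1)
    (ha2 : a % 2 = 1)
    [IsDomain (QuadraticAlgebra ℤ m (B : ℤ))]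
    [UniqueFactorizationMonoid (QuadraticAlgebra ℤ m (B : ℤ))] {Q : ℕ} (hQ0 : Q ≠ 0)
    (hQ : ∀ p : ℕ, p.Prime → p ≠ 2 → p ∣ Q → (p : ℤ) < m ∧ (p : ℤ) ≠ r) :
    ∃ t : ℤ, zB a b t = B ∧ zm a b t = m ∧ zr a b t = r ∧ Sys Q a b t := by
  obtain ⟨t, hB, hm, hr⟩ := exists_t h
  refine ⟨t, hB, hm, hr, ?_⟩
  obtain ⟨d, hd⟩ : ∃ d : ℕ, (d : ℤ) = (B : ℤ) ^ 2 + 4 * m := by
    refine ⟨((B : ℤ) ^ 2 + 4 * m).toNat, Int.toNat_of_nonneg ?_⟩
    have : (0 : ℤ) ≤ (B : ℤ) ^ 2 := sq_nonneg _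
    have := h.hm
    omega
  have h8 : d % 8 = 5 := by
    obtain ⟨j, hj⟩ : ∃ j : ℤ, (B : ℤ) = 2 * j + 1 := ⟨(B : ℤ) / 2, by omega⟩
    obtain ⟨i, hi⟩ : ∃ i : ℤ, m = 2 * i + 1 := ⟨m / 2, by omega⟩
    have e : (d : ℤ) = 4 * (j * (j + 1)) + 8 * i + 5 := by rw [hd, hj, hi]; ring
    obtain ⟨k, hk⟩ : ∃ k : ℤ, j * (j + 1) = 2 * k := by
      have := Int.even_mul_succ_self j
      obtain ⟨k, hk⟩ := this
      exact ⟨k, by omega⟩
    rw [hk] at e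
    omega
  have cop : ∀ p : ℕ, p.Prime → p ∣ Q → ¬ p ∣ d := by
    intro p hp hpQ hdvd
    rcases eq_or_ne p 2 with rfl | hp2
    · omega
    obtain ⟨h0, h0'⟩ := hQ p hp hp2 hpQ
    have h1 := E4.inert h hd h8 p hp hp2 h0' h0
    have h2 : jacobiSym (d : ℤ) p ≠ 0 := by rw [h1]; norm_num
    apply h2
    have : Fact p.Prime := ⟨hp⟩
    rw [← jacobiSym.legendreSym.to_jacobiSym, legendreSym.eq_zero_iff]
    have : ((d : ℕ) : ZMod p) = 0 := by rw [ZMod.natCast_eq_zero_iff]; exact hdvd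
    exact_mod_cast this
  have hcopP : Nat.Coprime d (Q ^ 6) := by
    apply Nat.Coprime.pow_right
    by_contra hc
    obtain ⟨p, hp, h1, h2⟩ := Nat.Prime.not_coprime_iff_dvd.1 hc
    exact cop p hp h2 h1
  have ha' : (a : ℤ) % 2 = 1 := by omega
  have hpar : (b : ℤ) % 2 = 1 ∧ t % 2 = 1 := by
    obtain ⟨i, hi⟩ : ∃ i : ℤ, (a : ℤ) = 2 * i + 1 := ⟨(a : ℤ) / 2, by omega⟩
    have eB : zB a b t % 2 = 1 := by rw [hB]; omega
    rcases Int.emod_two_eq_zero_or_one (b : ℤ) with hb | hb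
    · exfalso
      obtain ⟨k, hk⟩ : ∃ k : ℤ, (b : ℤ) = 2 * k := ⟨(b : ℤ) / 2, by omega⟩
      have e : zB a b t = 2 * ((a : ℤ) * t * (1 + a * k) - k * (1 + a * b)) := by
        unfold zB; rw [hk]; ring
      omega
    · refine ⟨hb, ?_⟩
      obtain ⟨k, hk⟩ : ∃ k : ℤ, (b : ℤ) = 2 * k + 1 := ⟨(b : ℤ) / 2, by omega⟩
      rcases Int.emod_two_eq_zero_or_one t with ht | ht
      · exfalso
        obtain ⟨j, hj⟩ : ∃ j : ℤ, t = 2 * j := ⟨t / 2, by omega⟩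
        have e : zB a b t = 2 * (a * j * (2 + a * b) - b * (1 + 2 * i * k + i + k)) := by
          unfold zB
          have e2 : (1 : ℤ) + a * b = 2 * (1 + 2 * i * k + i + k) := by rw [hi, hk]; ring
          rw [e2, hj]
          ring
        omega
      · exact ht
  refine ⟨ha', hpar.1, hpar.2, ?_, ?_⟩
  · intro p hp hp2 hpQ
    obtain ⟨h0, h0'⟩ := hQ p hp hp2 hpQ
    exact in_of h hd h8 hB hm hp hp2 h0' h0
  intro n1 n2 n3 N T1 T2 T3 _ _ _ _ _ h1 h2 h3 h4 hN2 h5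
  have hN : 0 < N := by omega
  obtain ⟨ho, hs⟩ := relOk_spec hN h1 h2 h3 h4
  have hdq : Nat.Coprime (n1 * n2 * n3) d :=
    (Nat.Coprime.coprime_dvd_right ((Dvd.intro _ rfl).trans h5) hcopP).symm
  have hdN : Nat.Coprime d N := Nat.Coprime.coprime_dvd_right ((Dvd.intro_left _ rfl).trans h5) hcopP
  have hc := tri_char (n1 := n1) (n2 := n2) (n3 := n3) (tabCk_char h2) (tabCk_char h3)
    (tabCk_char h4)
  exact rel_of h hm2 hB2 hd h8 hB hm hr hdq hN2 hdN _ ho hc.mul hs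

/-- code of a class -/
def cdK (p : ℕ) (c : ℕ × ℕ × ℕ) : ℕ := Nat.add c.1 (Nat.mul p (Nat.add c.2.1 (Nat.mul p c.2.2)))

/-- the class of a triple -/
def cl (p : ℕ) (a b t : ℤ) : ℕ × ℕ × ℕ := (rs p a, rs p b, rs p t)

/-! ### decoding -/

/-- the class modulo `p` in a code -/
def cls {β : Type} (p M c : ℕ) (k : ℕ → ℕ → ℕ → β) : β :=
  strict (Nat.mod (Nat.div c M) (Nat.mul p (Nat.mul p p))) fun x =>
  strict (Nat.mod x p) fun a => strict (Nat.mod (Nat.div x p) p) fun b =>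
  strict (Nat.div x (Nat.mul p p)) fun t => k a b t

lemma cdK_eq (p : ℕ) (a b t : ℤ) : cdK p (cl p a b t) = rs p a + p * (rs p b + p * rs p t) := rfl

lemma cdK_lt (p : ℕ) [NeZero p] (a b t : ℤ) : cdK p (cl p a b t) < p * (p * p) := by
  rw [cdK_eq]
  have h1 := rs_lt (p := p) a
  have h2 := rs_lt (p := p) b
  have h3 := rs_lt (p := p) t
  have h4 : p * (rs p b + p * rs p t + 1) ≤ p * (p * p) := by
    apply Nat.mul_le_mul_left
    have : p * (rs p t + 1) ≤ p * p := Nat.mul_le_mul_left _ h3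
    calc rs p b + p * rs p t + 1 ≤ p * (rs p t + 1) := by
          rw [mul_add, mul_one]; omega
      _ ≤ _ := this
  rw [mul_add, mul_one] at h4
  omega

lemma cls_eq {β : Type} {p M c : ℕ} [NeZero p] {a b t : ℤ} {k : ℕ → ℕ → ℕ → β}
    (h : c / M % (p * (p * p)) = cdK p (cl p a b t)) :
    cls p M c k = k (rs p a) (rs p b) (rs p t) := by
  have hp : 0 < p := Nat.pos_of_ne_zero (NeZero.ne p)
  have h1 := rs_lt (p := p) a
  have h2 := rs_lt (p := p) b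
  have h3 := rs_lt (p := p) t
  have e0 : Nat.mod (Nat.div c M) (Nat.mul p (Nat.mul p p)) = cdK p (cl p a b t) := h
  have e1 : Nat.mod (cdK p (cl p a b t)) p = rs p a := by
    change (rs p a + p * (rs p b + p * rs p t)) % p = _
    rw [Nat.add_mul_mod_self_left, Nat.mod_eq_of_lt h1]
  have e2' : (rs p a + p * (rs p b + p * rs p t)) / p = rs p b + p * rs p t := by
    rw [Nat.add_mul_div_left _ _ hp, Nat.div_eq_of_lt h1, zero_add]
  have e2 : Nat.mod (Nat.div (cdK p (cl p a b t)) p) p = rs p b := by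
    change ((rs p a + p * (rs p b + p * rs p t)) / p) % p = _
    rw [e2', Nat.add_mul_mod_self_left, Nat.mod_eq_of_lt h2]
  have e3 : Nat.div (cdK p (cl p a b t)) (Nat.mul p p) = rs p t := by
    change (rs p a + p * (rs p b + p * rs p t)) / (p * p) = _
    rw [← Nat.div_div_eq_div_mul, e2', Nat.add_mul_div_left _ _ hp, Nat.div_eq_of_lt h2, zero_add]
  unfold cls
  simp only [strict_eq]
  rw [e0, e1, e2, e3]

lemma cls_ex {p M c : ℕ} {k : ℕ → ℕ → ℕ → Bool} (h : cls p M c k = true) :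
    ∃ a b t, k a b t = true := by
  unfold cls at h
  simp only [strict_eq] at h
  exact ⟨_, _, _, h⟩


/-- data of a class in a code -/
def wq (p M c : ℕ) (k : ℕ → ℕ → ℕ → ℕ → ℕ → ℕ → ℕ → ℕ → Bool) : Bool :=
  cls p M c fun a b t => withP4 p a b t fun B m nm nr R d => k a b B m nm nr R d

lemma wq_eq {p M c : ℕ} [NeZero p] {a b t : ℤ}
    {k : ℕ → ℕ → ℕ → ℕ → ℕ → ℕ → ℕ → ℕ → Bool}
    (h : c / M % (p * (p * p)) = cdK p (cl p a b t)) :
    wq p M c k = k (rs p a) (rs p b) (rs p (zB a b t)) (rs p (zm a b t))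
      (rs p (-zm a b t)) (rs p (-zr a b t)) (rs p (zR a b t)) (rs p (zd a b t)) := by
  unfold wq
  rw [cls_eq h, withP4_eq]

lemma wq_ex {p M c : ℕ} {k : ℕ → ℕ → ℕ → ℕ → ℕ → ℕ → ℕ → ℕ → Bool}
    (h : wq p M c k = true) : ∃ a b B m nm nr R d, k a b B m nm nr R d = true := by
  obtain ⟨a, b, t, h1⟩ := cls_ex h
  obtain ⟨B, m, nm, nr, R, d, h2⟩ := withP4_ex h1
  exact ⟨a, b, B, m, nm, nr, R, d, h2⟩

end Pool.Agent.Lib_helper5.K4
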