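import Pool.Agent.Lib_helper5.K4.FnA

/-! generated: kernel checks -/

namespace Pool.Agent.Lib_helper5.K4

lemma stA_12 : stA (nat_lit 12) (nat_lit 0) (nat_lit 19) = true := by decide +kernel

lemma stA_13 : stA (nat_lit 13) (nat_lit 0) (nat_lit 19) = true := by decide +kernel

lemma stA_14 : stA (nat_lit 14) (nat_lit 0) (nat_lit 19) = true := by decide +kernel

lemma stA_15 : stA (nat_lit 15) (nat_lit 0) (nat_lit 19) = true := by decide +kernel

end Pool.Agent.Lib_helper5.K4
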