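import Pool.Agent.Lib_helper5.K4.FnB

/-! generated: kernel checks -/

namespace Pool.Agent.Lib_helper5.K4

lemma stB_16 : stB (nat_lit 3, nat_lit 1, nat_lit 1) = true := by decide +kernel

lemma stB_17 : stB (nat_lit 3, nat_lit 1, nat_lit 3) = true := by decide +kernel

lemma stB_18 : stB (nat_lit 3, nat_lit 1, nat_lit 5) = true := by decide +kernel

lemma stB_19 : stB (nat_lit 3, nat_lit 1, nat_lit 7) = true := by decide +kernel

lemma stB_20 : stB (nat_lit 3, nat_lit 3, nat_lit 1) = true := by decide +kernel

lemma stB_21 : stB (nat_lit 3, nat_lit 3, nat_lit 3) = true := by decide +kernel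

lemma stB_22 : stB (nat_lit 3, nat_lit 3, nat_lit 5) = true := by decide +kernel

lemma stB_23 : stB (nat_lit 3, nat_lit 3, nat_lit 7) = true := by decide +kernel

end Pool.Agent.Lib_helper5.K4
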