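import Pool.Agent.Lib_helper5.K4.FnC

/-! generated: kernel checks -/

namespace Pool.Agent.Lib_helper5.K4

lemma stC_3 : stC (nat_lit 3) (nat_lit 1) = true := by decide +kernel

lemma stC_4 : stC (nat_lit 4) (nat_lit 1) = true := by decide +kernel

lemma stC_5 : stC (nat_lit 5) (nat_lit 1) = true := by decide +kernel

end Pool.Agent.Lib_helper5.K4
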