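import Pool.Agent.Lib_helper5.K4.FnE

/-! generated: kernel checks -/

namespace Pool.Agent.Lib_helper5.K4

lemma stE_10 : stE (nat_lit 10) (nat_lit 1) = true := by decide +kernel

lemma stE_11 : stE (nat_lit 11) (nat_lit 1) = true := by decide +kernel

lemma stE_12 : stE (nat_lit 12) (nat_lit 1) = true := by decide +kernel

lemma stE_13 : stE (nat_lit 13) (nat_lit 1) = true := by decide +kernel

lemma stE_14 : stE (nat_lit 14) (nat_lit 1) = true := by decide +kernel

end Pool.Agent.Lib_helper5.K4
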