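import Pool.Agent.Lib_helper5.K4.FnE

/-! generated: kernel checks -/

namespace Pool.Agent.Lib_helper5.K4

lemma stE_15 : stE (nat_lit 15) (nat_lit 1) = true := by decide +kernel

lemma stE_16 : stE (nat_lit 16) (nat_lit 1) = true := by decide +kernel

end Pool.Agent.Lib_helper5.K4
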