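import Pool.Agent.Lib_helper5.K4.FnF

/-! generated: kernel checks -/

namespace Pool.Agent.Lib_helper5.K4

lemma stF_0 : stF (nat_lit 0) (nat_lit 3) = true := by decide +kernel

end Pool.Agent.Lib_helper5.K4
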