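import Pool.Agent.Lib_helper5.K4.Fam
import Pool.Agent.Lib_helper5.K4.KA0
import Pool.Agent.Lib_helper5.K4.KA1
import Pool.Agent.Lib_helper5.K4.KA2
import Pool.Agent.Lib_helper5.K4.KA3
import Pool.Agent.Lib_helper5.K4.KA4
import Pool.Agent.Lib_helper5.K4.KB0
import Pool.Agent.Lib_helper5.K4.KB1
import Pool.Agent.Lib_helper5.K4.KB2
import Pool.Agent.Lib_helper5.K4.KB3
import Pool.Agent.Lib_helper5.K4.KC0
import Pool.Agent.Lib_helper5.K4.KC1
import Pool.Agent.Lib_helper5.K4.KC2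
import Pool.Agent.Lib_helper5.K4.KC3
import Pool.Agent.Lib_helper5.K4.KC4
import Pool.Agent.Lib_helper5.K4.KD0
import Pool.Agent.Lib_helper5.K4.KD1
import Pool.Agent.Lib_helper5.K4.KD2
import Pool.Agent.Lib_helper5.K4.KE0
import Pool.Agent.Lib_helper5.K4.KE1
import Pool.Agent.Lib_helper5.K4.KE2
import Pool.Agent.Lib_helper5.K4.KE3
import Pool.Agent.Lib_helper5.K4.KF0
import Pool.Agent.Lib_helper5.K4.KG0

/-!
The elimination for period four.
-/

namespace Pool.Agent.Lib_helper5.K4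

open Finset LK Pool.Agent.LibH4 Pool.Agent.LibH4.Ker Pool.Agent.LibH4.T6 Pool.Agent.LibH4.KF

/-- membership of a triple -/
def memT (c : ℕ × ℕ × ℕ) (L : List (ℕ × ℕ × ℕ)) : Bool :=
  @List.rec (ℕ × ℕ × ℕ) (fun _ => Bool) false (fun x _ ih =>
    @Bool.rec (fun _ => Bool) ih true (andB (andB (Nat.beq x.1 c.1) (Nat.beq x.2.1 c.2.1))
      (Nat.beq x.2.2 c.2.2))) L

lemma memT_spec {c : ℕ × ℕ × ℕ} {L : List (ℕ × ℕ × ℕ)} (h : memT c L = true) : c ∈ L := by
  induction L with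
  | nil => exact absurd h (by simp [memT])
  | cons x L ih =>
    have h' : @Bool.rec (fun _ => Bool) (memT c L) true (andB (andB (Nat.beq x.1 c.1)
      (Nat.beq x.2.1 c.2.1)) (Nat.beq x.2.2 c.2.2)) = true := h
    cases hb : (andB (andB (Nat.beq x.1 c.1) (Nat.beq x.2.1 c.2.1)) (Nat.beq x.2.2 c.2.2)) with
    | false => rw [hb] at h'; simp [ih h']
    | true =>
      obtain ⟨h1, h2⟩ := andB_spec hb
      obtain ⟨h3, h4⟩ := andB_spec h1
      have e1 := Nat.eq_of_beq_eq_true h2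
      have e2 := Nat.eq_of_beq_eq_true h3
      have e3 := Nat.eq_of_beq_eq_true h4
      have : c = x := Prod.ext e2.symm (Prod.ext e3.symm e1.symm)
      simp [this]

/-- all odd classes modulo 8 are in the list up to sign -/
def ckD8 : Bool :=
  allR (fun a => allR (fun b => allR (fun t =>
    impB (Nat.beq (Nat.mod (Nat.mul a (Nat.mul b t)) (nat_lit 2)) (nat_lit 1))
      (@Bool.rec (fun _ => Bool) (memT (Nat.mod (Nat.sub (nat_lit 8) a) (nat_lit 8),
        Nat.mod (Nat.sub (nat_lit 8) b) (nat_lit 8), t) D8) true (memT (a, b, t) D8)))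
      (nat_lit 8)) (nat_lit 8)) (nat_lit 8)

lemma ckD8_true : ckD8 = true := by decide +kernel

lemma mem_D8 {Q : ℕ} {a b t : ℤ} (S : Sys Q a b t) : cl 8 a b t ∈ D8 ∨ cl 8 (-a) (-b) t ∈ D8 := by
  have h := allR_spec (allR_spec (allR_spec ckD8_true (rs 8 a) (rs_lt a)) (rs 8 b) (rs_lt b))
    (rs 8 t) (rs_lt t)
  have i8 : ∀ x : ℤ, ((rs 8 x : ℕ) : ℤ) = x % 8 := fun x => ZMod.val_intCast x
  have o : ∀ x : ℤ, x % 2 = 1 → rs 8 x % 2 = 1 := by
    intro x hx
    have := i8 x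
    omega
  have ho : Nat.beq (Nat.mod (Nat.mul (rs 8 a) (Nat.mul (rs 8 b) (rs 8 t))) (nat_lit 2))
      (nat_lit 1) = true := by
    have e : (rs 8 a * (rs 8 b * rs 8 t)) % 2 = 1 := by
      rw [Nat.mul_mod, Nat.mul_mod (rs 8 b), o a S.oa, o b S.ob, o t S.ot]
    change Nat.beq ((rs 8 a * (rs 8 b * rs 8 t)) % 2) 1 = true
    rw [e]
    rfl
  have h := impB_spec h ho
  rw [rs_opp, rs_opp] at h
  cases hb : memT (rs 8 a, rs 8 b, rs 8 t) D8 with
  | false => rw [hb] at h; exact Or.inr (memT_spec h)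
  | true => exact Or.inl (memT_spec hb)

lemma stB_all : ∀ x ∈ D8, stB x = true :=
  List.forall_mem_cons.2 ⟨stB_0,
  List.forall_mem_cons.2 ⟨stB_1,
  List.forall_mem_cons.2 ⟨stB_2,
  List.forall_mem_cons.2 ⟨stB_3,
  List.forall_mem_cons.2 ⟨stB_4,
  List.forall_mem_cons.2 ⟨stB_5,
  List.forall_mem_cons.2 ⟨stB_6,
  List.forall_mem_cons.2 ⟨stB_7,
  List.forall_mem_cons.2 ⟨stB_8,
  List.forall_mem_cons.2 ⟨stB_9,
  List.forall_mem_cons.2 ⟨stB_10,
  List.forall_mem_cons.2 ⟨stB_11,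
  List.forall_mem_cons.2 ⟨stB_12,
  List.forall_mem_cons.2 ⟨stB_13,
  List.forall_mem_cons.2 ⟨stB_14,
  List.forall_mem_cons.2 ⟨stB_15,
  List.forall_mem_cons.2 ⟨stB_16,
  List.forall_mem_cons.2 ⟨stB_17,
  List.forall_mem_cons.2 ⟨stB_18,
  List.forall_mem_cons.2 ⟨stB_19,
  List.forall_mem_cons.2 ⟨stB_20,
  List.forall_mem_cons.2 ⟨stB_21,
  List.forall_mem_cons.2 ⟨stB_22,
  List.forall_mem_cons.2 ⟨stB_23,
  List.forall_mem_cons.2 ⟨stB_24,
  List.forall_mem_cons.2 ⟨stB_25,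
  List.forall_mem_cons.2 ⟨stB_26,
  List.forall_mem_cons.2 ⟨stB_27,
  List.forall_mem_cons.2 ⟨stB_28,
  List.forall_mem_cons.2 ⟨stB_29,
  List.forall_mem_cons.2 ⟨stB_30,
  List.forall_mem_cons.2 ⟨stB_31,
  (List.forall_mem_nil _)⟩⟩⟩⟩⟩⟩⟩⟩⟩⟩⟩⟩⟩⟩⟩⟩⟩⟩⟩⟩⟩⟩⟩⟩⟩⟩⟩⟩⟩⟩⟩⟩

/-- stage A -/
lemma stageA {Q : ℕ} {a b t : ℤ} (S : Sys Q a b t) (hQ : 38 ∣ Q) (h8 : cl 8 a b t ∈ D8) :
    c152 a b t ∈ S152 := by
  have ha : rs 19 a < 19 := rs_lt a
  have hb : rs 19 b < 0 + 19 := by rw [zero_add]; exact rs_lt b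
  have key : ∀ x : ℕ, stA x 0 19 = true → rs 19 a = x → c152 a b t ∈ S152 := by
    intro x hx e
    rw [← e] at hx
    exact stA_spec S hQ h8 hx (Nat.zero_le _) hb
  generalize e : rs 19 a = x at ha
  interval_cases x
  · exact key 0 stA_0 e
  · exact key 1 stA_1 e
  · exact key 2 stA_2 e
  · exact key 3 stA_3 e
  · exact key 4 stA_4 e
  · exact key 5 stA_5 e
  · exact key 6 stA_6 e
  · exact key 7 stA_7 e
  · exact key 8 stA_8 e
  · exact key 9 stA_9 e
  · exact key 10 stA_10 e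
  · exact key 11 stA_11 e
  · exact key 12 stA_12 e
  · exact key 13 stA_13 e
  · exact key 14 stA_14 e
  · exact key 15 stA_15 e
  · exact key 16 stA_16 e
  · exact key 17 stA_17 e
  · exact key 18 stA_18 e

/-- stage B -/
lemma stageB {Q : ℕ} {a b t : ℤ} (S : Sys Q a b t) (hQ : 190 ∣ Q) (h8 : cl 8 a b t ∈ D8) :
    c760 a b t ∈ S760 :=
  stB_spec S hQ (stageA S (Dvd.dvd.trans (by norm_num) hQ) h8) (stB_all _ h8)

/-- stage C -/
lemma stageC {Q : ℕ} {a b t : ℤ} (S : Sys Q a b t) (hQ : 2470 ∣ Q)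
    (hc : c760 a b t ∈ S760) : c9880 a b t ∈ S9880 := by
  have ha : rs 13 a < 13 := rs_lt a
  rcases Nat.lt_or_ge (rs 13 a) 1 with h0 | h0
  · exact stC_spec (lo := 0) (n := 1) S hQ hc stC_0 (by omega) (by omega)
  rcases Nat.lt_or_ge (rs 13 a) 2 with h1 | h1
  · exact stC_spec (lo := 1) (n := 1) S hQ hc stC_1 (by omega) (by omega)
  rcases Nat.lt_or_ge (rs 13 a) 3 with h2 | h2
  · exact stC_spec (lo := 2) (n := 1) S hQ hc stC_2 (by omega) (by omega)
  rcases Nat.lt_or_ge (rs 13 a) 4 with h3 | h3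
  · exact stC_spec (lo := 3) (n := 1) S hQ hc stC_3 (by omega) (by omega)
  rcases Nat.lt_or_ge (rs 13 a) 5 with h4 | h4
  · exact stC_spec (lo := 4) (n := 1) S hQ hc stC_4 (by omega) (by omega)
  rcases Nat.lt_or_ge (rs 13 a) 6 with h5 | h5
  · exact stC_spec (lo := 5) (n := 1) S hQ hc stC_5 (by omega) (by omega)
  rcases Nat.lt_or_ge (rs 13 a) 7 with h6 | h6
  · exact stC_spec (lo := 6) (n := 1) S hQ hc stC_6 (by omega) (by omega)
  rcases Nat.lt_or_ge (rs 13 a) 8 with h7 | h7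
  · exact stC_spec (lo := 7) (n := 1) S hQ hc stC_7 (by omega) (by omega)
  rcases Nat.lt_or_ge (rs 13 a) 9 with h8 | h8
  · exact stC_spec (lo := 8) (n := 1) S hQ hc stC_8 (by omega) (by omega)
  rcases Nat.lt_or_ge (rs 13 a) 10 with h9 | h9
  · exact stC_spec (lo := 9) (n := 1) S hQ hc stC_9 (by omega) (by omega)
  rcases Nat.lt_or_ge (rs 13 a) 11 with h10 | h10
  · exact stC_spec (lo := 10) (n := 1) S hQ hc stC_10 (by omega) (by omega)
  rcases Nat.lt_or_ge (rs 13 a) 12 with h11 | h11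
  · exact stC_spec (lo := 11) (n := 1) S hQ hc stC_11 (by omega) (by omega)
  exact stC_spec (lo := 12) (n := 1) S hQ hc stC_12 (by omega) (by omega)

/-- stage D -/
lemma stageD {Q : ℕ} {a b t : ℤ} (S : Sys Q a b t) (hQ : 17290 ∣ Q)
    (hc : c9880 a b t ∈ S9880) : c69160 a b t ∈ S69160a := by
  have ha : rs 7 a < 7 := rs_lt a
  rcases Nat.lt_or_ge (rs 7 a) 1 with h0 | h0
  · exact stD_spec (lo := 0) (n := 1) S hQ hc stD_0 (by omega) (by omega)
  rcases Nat.lt_or_ge (rs 7 a) 2 with h1 | h1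
  · exact stD_spec (lo := 1) (n := 1) S hQ hc stD_1 (by omega) (by omega)
  rcases Nat.lt_or_ge (rs 7 a) 3 with h2 | h2
  · exact stD_spec (lo := 2) (n := 1) S hQ hc stD_2 (by omega) (by omega)
  rcases Nat.lt_or_ge (rs 7 a) 4 with h3 | h3
  · exact stD_spec (lo := 3) (n := 1) S hQ hc stD_3 (by omega) (by omega)
  rcases Nat.lt_or_ge (rs 7 a) 5 with h4 | h4
  · exact stD_spec (lo := 4) (n := 1) S hQ hc stD_4 (by omega) (by omega)
  rcases Nat.lt_or_ge (rs 7 a) 6 with h5 | h5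
  · exact stD_spec (lo := 5) (n := 1) S hQ hc stD_5 (by omega) (by omega)
  exact stD_spec (lo := 6) (n := 1) S hQ hc stD_6 (by omega) (by omega)

/-- stage E -/
lemma stageE {Q : ℕ} {a b t : ℤ} (S : Sys Q a b t) (hQ : 293930 ∣ Q)
    (hc : c69160 a b t ∈ S69160) : c1175720 a b t ∈ S1175720 := by
  have ha : rs 17 a < 17 := rs_lt a
  rcases Nat.lt_or_ge (rs 17 a) 1 with h0 | h0
  · exact stE_spec (lo := 0) (n := 1) S hQ hc stE_0 (by omega) (by omega)
  rcases Nat.lt_or_ge (rs 17 a) 2 with h1 | h1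
  · exact stE_spec (lo := 1) (n := 1) S hQ hc stE_1 (by omega) (by omega)
  rcases Nat.lt_or_ge (rs 17 a) 3 with h2 | h2
  · exact stE_spec (lo := 2) (n := 1) S hQ hc stE_2 (by omega) (by omega)
  rcases Nat.lt_or_ge (rs 17 a) 4 with h3 | h3
  · exact stE_spec (lo := 3) (n := 1) S hQ hc stE_3 (by omega) (by omega)
  rcases Nat.lt_or_ge (rs 17 a) 5 with h4 | h4
  · exact stE_spec (lo := 4) (n := 1) S hQ hc stE_4 (by omega) (by omega)
  rcases Nat.lt_or_ge (rs 17 a) 6 with h5 | h5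
  · exact stE_spec (lo := 5) (n := 1) S hQ hc stE_5 (by omega) (by omega)
  rcases Nat.lt_or_ge (rs 17 a) 7 with h6 | h6
  · exact stE_spec (lo := 6) (n := 1) S hQ hc stE_6 (by omega) (by omega)
  rcases Nat.lt_or_ge (rs 17 a) 8 with h7 | h7
  · exact stE_spec (lo := 7) (n := 1) S hQ hc stE_7 (by omega) (by omega)
  rcases Nat.lt_or_ge (rs 17 a) 9 with h8 | h8
  · exact stE_spec (lo := 8) (n := 1) S hQ hc stE_8 (by omega) (by omega)
  rcases Nat.lt_or_ge (rs 17 a) 10 with h9 | h9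
  · exact stE_spec (lo := 9) (n := 1) S hQ hc stE_9 (by omega) (by omega)
  rcases Nat.lt_or_ge (rs 17 a) 11 with h10 | h10
  · exact stE_spec (lo := 10) (n := 1) S hQ hc stE_10 (by omega) (by omega)
  rcases Nat.lt_or_ge (rs 17 a) 12 with h11 | h11
  · exact stE_spec (lo := 11) (n := 1) S hQ hc stE_11 (by omega) (by omega)
  rcases Nat.lt_or_ge (rs 17 a) 13 with h12 | h12
  · exact stE_spec (lo := 12) (n := 1) S hQ hc stE_12 (by omega) (by omega)
  rcases Nat.lt_or_ge (rs 17 a) 14 with h13 | h13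
  · exact stE_spec (lo := 13) (n := 1) S hQ hc stE_13 (by omega) (by omega)
  rcases Nat.lt_or_ge (rs 17 a) 15 with h14 | h14
  · exact stE_spec (lo := 14) (n := 1) S hQ hc stE_14 (by omega) (by omega)
  rcases Nat.lt_or_ge (rs 17 a) 16 with h15 | h15
  · exact stE_spec (lo := 15) (n := 1) S hQ hc stE_15 (by omega) (by omega)
  exact stE_spec (lo := 16) (n := 1) S hQ hc stE_16 (by omega) (by omega)

/-- stage F -/
lemma stageF {Q : ℕ} {a b t : ℤ} (S : Sys Q a b t) (hQ : 881790 ∣ Q)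
    (hc : c1175720 a b t ∈ S1175720) : c3527160 a b t ∈ S3527160 := by
  have ha : rs 3 a < 3 := rs_lt a
  exact stF_spec (lo := 0) (n := 3) S hQ hc stF_0 (by omega) (by omega)

/-- stage G -/
lemma stageG {Q : ℕ} {a b t : ℤ} (S : Sys Q a b t) (hQ : 9699690 ∣ Q)
    (hc : c3527160 a b t ∈ S3527160) : False := by
  have ha : rs 11 a < 11 := rs_lt a
  exact stG_spec (lo := 0) (n := 11) S hQ hc stG_0 (by omega) (by omega)

/-- classes modulo 69160 -/
lemma to69160 {Q : ℕ} {a b t : ℤ} (S : Sys Q a b t) (hQ : 17290 ∣ Q) (h8 : cl 8 a b t ∈ D8) :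
    c69160 a b t ∈ S69160 :=
  flt_spec S hQ (stageD S hQ (stageC S (Dvd.dvd.trans (by norm_num) hQ)
    (stageB S (Dvd.dvd.trans (by norm_num) hQ) h8))) fltD

lemma no_sys' {a b t : ℤ} (S : Sys 9699690 a b t) (h8 : cl 8 a b t ∈ D8) : False :=
  stageG S dvd_rfl (stageF S (by norm_num) (stageE S (by norm_num) (to69160 S (by norm_num) h8)))

/-- the system has no solution -/
theorem no_sys {a b t : ℤ} (S : Sys 9699690 a b t) : False := by
  rcases mem_D8 S with h | h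
  · exact no_sys' S h
  · exact no_sys' S.neg h

lemma prime_dvd_list {p : ℕ} (hp : p.Prime) {L : List ℕ} (hL : ∀ q ∈ L, q.Prime)
    (h : p ∣ L.prod) : p ∈ L := by
  obtain ⟨q, hq, h1⟩ := (Nat.Prime.prime hp).dvd_prod_iff.1 h
  rw [(Nat.prime_dvd_prime_iff_eq hp (hL q hq)).1 h1]
  exact hq

/-- the family with `r = 7` -/
lemma no_7 {t : ℤ} (S : Sys 190 (3 : ℕ) ((3 : ℕ) * t - (2 : ℕ)) t) : False := by
  rcases mem_D8 S with h | h
  · have h1 := fam760_specF f760_7 (stageB S dvd_rfl h)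
    exact absurd h1 (by simp)
  · have h1 := fam760_specN f760_7 (stageB S.neg dvd_rfl h)
    exact absurd h1 (by simp)

/-- the family with `r = 11` -/
lemma no_11 {t : ℤ} (S : Sys 17290 (5 : ℕ) ((5 : ℕ) * t - (2 : ℕ)) t) : False := by
  rcases mem_D8 S with h | h
  · exact famX_specF fX_11 (to69160 S dvd_rfl h)
  · exact famX_specN fX_11 (to69160 S.neg dvd_rfl h)

/-- the family with `r = 13` -/
lemma no_13 {t : ℤ} (S : Sys 22610 (3 : ℕ) ((3 : ℕ) * t - (4 : ℕ)) t) : False := by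
  have key : andB (Nat.beq (rs 8 t) (nat_lit 1)) (andB (Nat.beq (rs 19 t) (nat_lit 1))
      (Nat.beq (rs 5 t) (nat_lit 1))) = true := by
    rcases mem_D8 S with h | h
    · exact fam760_specF f760_13 (stageB S (by norm_num) h)
    · exact fam760_specN f760_13 (stageB S.neg (by norm_num) h)
  obtain ⟨h1, h2⟩ := andB_spec key
  obtain ⟨h3, h4⟩ := andB_spec h2
  exact famB_spec S dvd_rfl (Nat.eq_of_beq_eq_true h1) (Nat.eq_of_beq_eq_true h3)
    (Nat.eq_of_beq_eq_true h4) fB_3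

/-- the families with `r = 19` -/
lemma no_19a {t : ℤ} (S : Sys 910 (3 : ℕ) ((3 : ℕ) * t - (6 : ℕ)) t) : False :=
  famA_spec S dvd_rfl fA_3
lemma no_19b {t : ℤ} (S : Sys 910 (9 : ℕ) ((9 : ℕ) * t - (2 : ℕ)) t) : False :=
  famA_spec S dvd_rfl fA_9

section Main

variable {a b B : ℕ} {m r : ℤ}
  [IsDomain (QuadraticAlgebra ℤ m (B : ℤ))] [UniqueFactorizationMonoid (QuadraticAlgebra ℤ m (B : ℤ))]

/-- the system for a list of primes -/
lemma sys_list (h : E4.Par a b B m r) (hm2 : m % 2 = 1) (hB2 : B % 2 = 1) (ha2 : a % 2 = 1)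
    (hm : 19 < m) (L : List ℕ) (hL : ∀ q ∈ L, q.Prime) (hL' : ∀ q ∈ L, q ≤ 19)
    (hr : ∀ q ∈ L, q ≠ 2 → (q : ℤ) ≠ r) {Q : ℕ} (hQ : Q = L.prod) :
    ∃ t : ℤ, zB a b t = B ∧ zm a b t = m ∧ zr a b t = r ∧ Sys Q a b t := by
  subst hQ
  refine sys_of h hm2 hB2 ha2 (List.prod_ne_zero fun h0 => Nat.not_prime_zero (hL 0 h0)) ?_
  intro p hp hp2 hd
  have h1 := prime_dvd_list hp hL hd
  have h2 := hL' p h1
  exact ⟨by omega, hr p h1 hp2⟩

/-- **elimination for period four, odd first partial quotient** -/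
theorem elim4 (h : E4.Par a b B m r) (hm2 : m % 2 = 1) (hB2 : B % 2 = 1) (ha2 : a % 2 = 1)
    (ha3 : 3 ≤ a) (hm : 19 < m) : False := by
  have e1 := h.e1
  have hr := h.hr
  -- `a` divides `r - 1`
  have hdiv : (a : ℤ) ∣ r - 1 := ⟨B - m * a, by rw [e1]; ring⟩
  have fam : ∀ t : ℤ, ∀ a0 s : ℕ, a = a0 → zr a b t = r → r = 1 + a0 * s → 
      (b : ℤ) = (a0 : ℤ) * t - s := by
    intro t a0 s h1 h2 h3
    subst h1
    have h4 : (a : ℤ) * (a * t - b) = a * s := by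
      rw [← h2] at h3
      unfold zr at h3
      linear_combination h3
    have h5 := mul_left_cancel₀ (by positivity : (a : ℤ) ≠ 0) h4
    linarith
  have hcast : ∀ a0 : ℕ, a ≤ a0 → a = 3 ∨ a = 5 ∨ a = 7 ∨ a = 9 ∨ 10 < a0 := by
    intro a0 h0
    omega
  by_cases r3 : r = 3
  · have := Int.le_of_dvd (by omega) hdiv
    omega
  by_cases r5 : r = 5
  · rw [r5] at hdiv
    have := Int.le_of_dvd (by omega) hdiv
    have : a = 3 := by omega
    rw [this] at hdiv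
    norm_num at hdiv
  by_cases r17 : r = 17
  · rw [r17] at hdiv
    have h1 := Int.le_of_dvd (by omega) hdiv
    have h2 : a = 3 ∨ a = 5 ∨ a = 7 ∨ a = 9 ∨ a = 11 ∨ a = 13 ∨ a = 15 := by omega
    rcases h2 with h2 | h2 | h2 | h2 | h2 | h2 | h2 <;> rw [h2] at hdiv <;> norm_num at hdiv
  by_cases r7 : r = 7
  · rw [r7] at hdiv
    have h1 := Int.le_of_dvd (by omega) hdiv
    have h2 : a = 3 ∨ a = 5 := by omega
    rcases h2 with h2 | h2
    · obtain ⟨t, -, -, hz, S⟩ := sys_list h hm2 hB2 ha2 hm [2, 5, 19] (by decide) (by decide)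
        (by rw [r7]; decide) (Q := 190) (by norm_num)
      have hb := fam t 3 2 h2 hz (by rw [r7]; norm_num)
      rw [hb, h2] at S
      exact no_7 S
    · rw [h2] at hdiv; norm_num at hdiv
  by_cases r11 : r = 11
  · rw [r11] at hdiv
    have h1 := Int.le_of_dvd (by omega) hdiv
    have h2 : a = 3 ∨ a = 5 ∨ a = 7 ∨ a = 9 := by omega
    rcases h2 with h2 | h2 | h2 | h2
    · rw [h2] at hdiv; norm_num at hdiv
    · obtain ⟨t, -, -, hz, S⟩ := sys_list h hm2 hB2 ha2 hm [2, 5, 7, 13, 19] (by decide)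
        (by decide) (by rw [r11]; decide) (Q := 17290) (by norm_num)
      have hb := fam t 5 2 h2 hz (by rw [r11]; norm_num)
      rw [hb, h2] at S
      exact no_11 S
    · rw [h2] at hdiv; norm_num at hdiv
    · rw [h2] at hdiv; norm_num at hdiv
  by_cases r13 : r = 13
  · rw [r13] at hdiv
    have h1 := Int.le_of_dvd (by omega) hdiv
    have h2 : a = 3 ∨ a = 5 ∨ a = 7 ∨ a = 9 ∨ a = 11 := by omega
    rcases h2 with h2 | h2 | h2 | h2 | h2
    · obtain ⟨t, -, -, hz, S⟩ := sys_list h hm2 hB2 ha2 hm [2, 5, 7, 17, 19] (by decide)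
        (by decide) (by rw [r13]; decide) (Q := 22610) (by norm_num)
      have hb := fam t 3 4 h2 hz (by rw [r13]; norm_num)
      rw [hb, h2] at S
      exact no_13 S
    all_goals rw [h2] at hdiv; norm_num at hdiv
  by_cases r19 : r = 19
  · rw [r19] at hdiv
    have h1 := Int.le_of_dvd (by omega) hdiv
    have h2 : a = 3 ∨ a = 5 ∨ a = 7 ∨ a = 9 ∨ a = 11 ∨ a = 13 ∨ a = 15 ∨ a = 17 := by omega
    rcases h2 with h2 | h2 | h2 | h2 | h2 | h2 | h2 | h2
    · obtain ⟨t, -, -, hz, S⟩ := sys_list h hm2 hB2 ha2 hm [2, 5, 7, 13] (by decide)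
        (by decide) (by rw [r19]; decide) (Q := 910) (by norm_num)
      have hb := fam t 3 6 h2 hz (by rw [r19]; norm_num)
      rw [hb, h2] at S
      exact no_19a S
    · rw [h2] at hdiv; norm_num at hdiv
    · rw [h2] at hdiv; norm_num at hdiv
    · obtain ⟨t, -, -, hz, S⟩ := sys_list h hm2 hB2 ha2 hm [2, 5, 7, 13] (by decide)
        (by decide) (by rw [r19]; decide) (Q := 910) (by norm_num)
      have hb := fam t 9 2 h2 hz (by rw [r19]; norm_num)
      rw [hb, h2] at S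
      exact no_19b S
    all_goals rw [h2] at hdiv; norm_num at hdiv
  obtain ⟨t, -, -, -, S⟩ := sys_list h hm2 hB2 ha2 hm [2, 3, 5, 7, 11, 13, 17, 19] (by decide)
    (by decide) (by
      intro q hq _
      simp only [List.mem_cons, List.not_mem_nil, or_false] at hq
      rcases hq with rfl | rfl | rfl | rfl | rfl | rfl | rfl | rfl <;> push_cast <;> omega)
    (Q := 9699690) (by norm_num)
  exact no_sys S

end Main

end Pool.Agent.Lib_helper5.K4
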