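import Pool.Agent.Lib_helper5.K4.FnA

/-!
Stage B: classes modulo 760.
-/

namespace Pool.Agent.Lib_helper5.K4

open Finset LK Pool.Agent.LibH4 Pool.Agent.LibH4.Ker Pool.Agent.LibH4.T6 Pool.Agent.LibH4.KF

/-- filtered version of `mapC` -/
def filC {β : Type} (p : ℕ → Bool) (f : ℕ → (β → Bool) → Bool) (L : List ℕ) (k : List β → Bool) :
    Bool :=
  @List.rec ℕ (fun _ => (List β → Bool) → Bool) (fun k => k [])
    (fun c _ ih k => @Bool.rec (fun _ => Bool) (ih k) (f c fun y => ih fun r => k (y :: r)) (p c))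
    L k

lemma filC_ex {β : Type} {p : ℕ → Bool} {f : ℕ → (β → Bool) → Bool} {L : List ℕ}
    {k : List β → Bool} (h' : ∀ x ∈ L, ∀ k', f x k' = true → ∃ y, k' y = true)
    (h : filC p f L k = true) : ∃ r, k r = true := by
  induction L generalizing k with
  | nil => exact ⟨[], h⟩
  | cons c L ih =>
    have e : filC p f (c :: L) k = @Bool.rec (fun _ => Bool) (filC p f L k)
      (f c fun y => filC p f L fun r => k (y :: r)) (p c) := rfl
    rw [e] at h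
    cases hp : p c with
    | false => rw [hp] at h; exact ih (fun z hz => h' z (by simp [hz])) h
    | true =>
      rw [hp] at h
      obtain ⟨y, hy⟩ := h' c (by simp) _ h
      obtain ⟨r, hr⟩ := ih (fun z hz => h' z (by simp [hz])) hy
      exact ⟨y :: r, hr⟩

lemma filC_mem {β : Type} {p : ℕ → Bool} {f : ℕ → (β → Bool) → Bool} {L : List ℕ}
    {k : List β → Bool} {x0 : ℕ} {g0 : β} {C : Prop} (hx : x0 ∈ L) (hp : p x0 = true)
    (h0 : ∀ k', f x0 k' = true → k' g0 = true ∧ C)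
    (h' : ∀ x ∈ L, ∀ k', f x k' = true → ∃ y, k' y = true) (h : filC p f L k = true) :
    ∃ r, k r = true ∧ g0 ∈ r ∧ C := by
  induction L generalizing k with
  | nil => exact absurd hx (by simp)
  | cons c L ih =>
    have e : filC p f (c :: L) k = @Bool.rec (fun _ => Bool) (filC p f L k)
      (f c fun y => filC p f L fun r => k (y :: r)) (p c) := rfl
    rw [e] at h
    rcases List.mem_cons.1 hx with rfl | hx
    · rw [hp] at h
      obtain ⟨h2, h3⟩ := h0 _ h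
      obtain ⟨r, hr⟩ := filC_ex (fun z hz => h' z (by simp [hz])) h2
      exact ⟨g0 :: r, hr, by simp, h3⟩
    · cases hp' : p c with
      | false => rw [hp'] at h; exact ih hx (fun z hz => h' z (by simp [hz])) h
      | true =>
        rw [hp'] at h
        obtain ⟨y, hy⟩ := h' c (by simp) _ h
        obtain ⟨r, hr, h4, h5⟩ := ih hx (fun z hz => h' z (by simp [hz])) hy
        exact ⟨y :: r, hr, by simp [h4], h5⟩

lemma rs_int {p : ℕ} [NeZero p] (x : ℤ) : ((rs p x : ℕ) : ℤ) = x % p := ZMod.val_intCast x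

/-- residues modulo 40 -/
def m40 (x y : ℕ) : ℕ := Nat.mod (Nat.add (Nat.mul (nat_lit 25) x) (Nat.mul (nat_lit 16) y)) (nat_lit 40)

lemma m40_eq (a : ℤ) : m40 (rs 8 a) (rs 5 a) = rs 40 a := by
  have h8 : (rs 8 a : ℤ) = a % 8 := by
    have := rs_int (p := 8) a
    exact_mod_cast this
  have h5 : (rs 5 a : ℤ) = a % 5 := by
    have := rs_int (p := 5) a
    exact_mod_cast this
  have h40 : (rs 40 a : ℤ) = a % 40 := by
    have := rs_int (p := 40) a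
    exact_mod_cast this
  change (25 * rs 8 a + 16 * rs 5 a) % 40 = _
  omega

/-- the rows of a class -/
def rowsB (G_b1 G_b2 G_b3 : List (ℕ × ℕ × ℕ)) (c : ℕ)
    (k : ((ℕ × ℕ) × ℕ) × ℕ → Bool) : Bool :=
  wq (nat_lit 19) (nat_lit 512) c fun a19 b19 B19 _ nm19 nr19 R19 d19 =>
  rowA (nat_lit 19) T1_b1 (nat_lit 480) G_b1 W_b1 Y1_b1 Y0_b1 (nat_lit 1) (nat_lit 19) d19
    (FK4 (nat_lit 19) (nat_lit 19) a19 b19 B19 B19 nm19 nr19 R19) (nat_lit 0) fun A =>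
    strict A fun A_b1 =>
  rowA (nat_lit 19) T1_b2 (nat_lit 5760) G_b2 W_b2 Y1_b2 Y0_b2 (nat_lit 1) (nat_lit 19) d19
    (FK4 (nat_lit 19) (nat_lit 19) a19 b19 B19 B19 nm19 nr19 R19) (nat_lit 0) fun A =>
    strict A fun A_b2 =>
  rowA (nat_lit 19) T1_b3 (nat_lit 5760) G_b3 W_b3 Y1_b3 Y0_b3 (nat_lit 1) (nat_lit 19) d19
    (FK4 (nat_lit 19) (nat_lit 19) a19 b19 B19 B19 nm19 nr19 R19) (nat_lit 0) fun A =>
    strict A fun A_b3 =>
  k (((c, A_b3), A_b2), A_b1)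

lemma rowsB_ex {c : ℕ} {k : ((ℕ × ℕ) × ℕ) × ℕ → Bool}
    (h : rowsB (ds19.map fun δ => (δ, gg 19 T1_b1 480 δ, LK.gs 19 T1_b1 δ))
      (ds19.map fun δ => (δ, gg 19 T1_b2 5760 δ, LK.gs 19 T1_b2 δ))
      (ds19.map fun δ => (δ, gg 19 T1_b3 5760 δ, LK.gs 19 T1_b3 δ)) c k = true) :
    ∃ y, k y = true := by
  unfold rowsB at h
  obtain ⟨_, _, _, _, _, _, _, _, h⟩ := wq_ex h
  obtain ⟨_, h⟩ := rowA_ex (by norm_num) (by norm_num) h
  obtain ⟨_, h⟩ := rowA_ex (by norm_num) (by norm_num) h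
  obtain ⟨_, h⟩ := rowA_ex (by norm_num) (by norm_num) h
  exact ⟨_, h⟩

/-- the value of the rows -/
def gB (a b t : ℤ) : ((ℕ × ℕ) × ℕ) × ℕ :=
  (((c152 a b t,
    RA 19 T1_b3 5760 W_b3 Y1_b3 Y0_b3 19 (zd a b t) (J4 a b t)),
    RA 19 T1_b2 5760 W_b2 Y1_b2 Y0_b2 19 (zd a b t) (J4 a b t)),
    RA 19 T1_b1 480 W_b1 Y1_b1 Y0_b1 19 (zd a b t) (J4 a b t))

/-- the conditions of the rows -/
def CB (a b t : ℤ) : Prop :=
  RC 19 T1_b1 1 19 (zd a b t) (J4 a b t) ∧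
  RC 19 T1_b2 1 19 (zd a b t) (J4 a b t) ∧
  RC 19 T1_b3 1 19 (zd a b t) (J4 a b t)

lemma rowsB_eq {a b t : ℤ} {k : ((ℕ × ℕ) × ℕ) × ℕ → Bool}
    (h : rowsB (ds19.map fun δ => (δ, gg 19 T1_b1 480 δ, LK.gs 19 T1_b1 δ))
      (ds19.map fun δ => (δ, gg 19 T1_b2 5760 δ, LK.gs 19 T1_b2 δ))
      (ds19.map fun δ => (δ, gg 19 T1_b3 5760 δ, LK.gs 19 T1_b3 δ)) (c152 a b t) k = true) :
    k (gB a b t) = true ∧ CB a b t := by
  unfold rowsB at h
  rw [wq_eq (c152_19 a b t)] at h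
  rw [FK4_eq (p := 19) (l := 19)] at h
  obtain ⟨h, C_b1⟩ := rowA_use (by norm_num) (by norm_num) h
  obtain ⟨h, C_b2⟩ := rowA_use (by norm_num) (by norm_num) h
  obtain ⟨h, C_b3⟩ := rowA_use (by norm_num) (by norm_num) h
  exact ⟨h, C_b1, C_b2, C_b3⟩

/-- the check, for a class modulo 8 -/
def stB (x8 : ℕ × ℕ × ℕ) : Bool :=
  ggl (nat_lit 19) T1_b1 (nat_lit 480) ds19 fun G_b1 =>
  ggl (nat_lit 19) T1_b2 (nat_lit 5760) ds19 fun G_b2 =>
  ggl (nat_lit 19) T1_b3 (nat_lit 5760) ds19 fun G_b3 =>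
  ggl (nat_lit 5) T3_b1 (nat_lit 80) ds5 fun H_b1 =>
  strict (cdK (nat_lit 8) x8) fun c8 =>
  filC (fun c => Nat.beq (Nat.mod c (nat_lit 512)) c8) (rowsB G_b1 G_b2 G_b3) S152 fun E =>
  allR (fun a => allR (fun b => allR (fun t =>
   withP4 (nat_lit 5) a b t fun B m nm nr R d =>
   @Bool.rec (fun _ => Bool) true (
     vecC (nat_lit 5) T3_b1 (nat_lit 80) (nat_lit 480) H_b1 d (forms4 (nat_lit 5) B m nm nr R)
       fun v => strict v fun v_b1 =>
     withP4 (nat_lit 40) (m40 x8.1 a) (m40 x8.2.1 b) (m40 x8.2.2 t) fun B' m' nm' nr' R' _ =>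
     (fun F : List (ℕ × ℕ × ℕ) =>
     strict (vecB (nat_lit 40) T3_b2 (nat_lit 1208925819614629174706176) (nat_lit 5760) L40 F)
       fun v_b2 =>
     strict (vecB (nat_lit 40) T3_b3 (nat_lit 1208925819614629174706176) (nat_lit 5760) L40 F)
       fun v_b3 =>
     strict (Nat.mul (nat_lit 3511808) (cdK (nat_lit 5) (a, b, t))) fun cn =>
     allQ (fun x => cond0 (ip (nat_lit 6859) (nat_lit 1360) x.2 v_b1)
       (cond0 (ip (nat_lit 6859) (nat_lit 17200) x.1.2 v_b2)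
       (cond0 (ip (nat_lit 6859) (nat_lit 17200) x.1.1.2 v_b3)
       (strict (Nat.add x.1.1.1 cn) fun c => memB c S760)))) E)
      (forms4 (nat_lit 40) B' m' nm' nr' R'))
   (Nat.beq (Nat.mod (Nat.pow d (nat_lit 2)) (nat_lit 5)) (nat_lit 4)))
   (nat_lit 5)) (nat_lit 5)) (nat_lit 5)

theorem stB_spec {Q : ℕ} {a b t : ℤ} (S : Sys Q a b t) (hQ : 190 ∣ Q) (hc : c152 a b t ∈ S152)
    (h : stB (cl 8 a b t) = true) : c760 a b t ∈ S760 := by
  unfold stB at h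
  simp only [ggl_eq] at h
  rw [strict_eq] at h
  obtain ⟨E, h, hE, C_b1, C_b2, C_b3⟩ := filC_mem hc
    (by rw [c152_mod]; exact Nat.beq_refl _)
    (fun k' => rowsB_eq) (fun x _ k' => rowsB_ex) h
  have h := allR_spec h (rs 5 a) (rs_lt a)
  have h := allR_spec h (rs 5 b) (rs_lt b)
  have h := allR_spec h (rs 5 t) (rs_lt t)
  rw [withP4_eq] at h
  have ii : Nat.beq (Nat.mod (Nat.pow (rs 5 (zd a b t)) (nat_lit 2)) (nat_lit 5)) (nat_lit 4)
    = true := S.inr 5 (by norm_num) (by norm_num) (Dvd.dvd.trans (by norm_num) hQ)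
  rw [ii] at h
  rw [forms4_eq (by norm_num)] at h
  obtain ⟨h, I_b1⟩ := vecC_use (by norm_num) h
  unfold cl at h
  rw [m40_eq, m40_eq, m40_eq, withP4_eq, forms4_eq (by norm_num)] at h
  rw [strict_eq, vecB_use, strict_eq, vecB_use, strict_eq] at h
  have h := allQ_spec h _ hE
  have h := cond0_zero (zC_b1 S (Dvd.dvd.trans (by norm_num) hQ) C_b1 I_b1) h
  have h := cond0_zero (zB_b2 S (Dvd.dvd.trans (by norm_num) hQ) C_b2) h
  have h := cond0_zero (zB_b3 S (Dvd.dvd.trans (by norm_num) hQ) C_b3) h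
  rw [strict_eq] at h
  exact memB_spec h

end Pool.Agent.Lib_helper5.K4
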