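import Pool.Agent.Lib_helper5.K4.FnA

/-!
Stage C: classes modulo 9880.
-/

namespace Pool.Agent.Lib_helper5.K4

open Finset LK Pool.Agent.LibH4 Pool.Agent.LibH4.Ker Pool.Agent.LibH4.T6 Pool.Agent.LibH4.KF

/-- the rows of a class -/
def rowsC (G_c1 G_c2 G_c4 : List (ℕ × ℕ × ℕ)) (c : ℕ)
    (k : ((ℕ × ℕ) × ℕ) × ℕ → Bool) : Bool :=
  wq (nat_lit 8) (nat_lit 1) c fun _ _ B8 m8 nm8 nr8 R8 _ =>
  wq (nat_lit 19) (nat_lit 512) c fun a19 b19 B19 _ nm19 nr19 R19 d19 =>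
  wq (nat_lit 5) (nat_lit 3511808) c fun a5 b5 B5 _ nm5 nr5 R5 d5 =>
  rowA (nat_lit 19) T1_c1 (nat_lit 1120) G_c1 W_c1 Y1_c1 Y0_c1 (nat_lit 1) (nat_lit 19) d19
    (FK4 (nat_lit 19) (nat_lit 19) a19 b19 B19 B19 nm19 nr19 R19) (nat_lit 0) fun A =>
    strict A fun A_c1 =>
  rowA (nat_lit 19) T1_c2 (nat_lit 1120) G_c2 W_c2 Y1_c2 Y0_c2 (nat_lit 1) (nat_lit 19) d19
    (FK4 (nat_lit 19) (nat_lit 19) a19 b19 B19 B19 nm19 nr19 R19) (nat_lit 0) fun A =>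
    strict A fun A_c2 =>
  rowA (nat_lit 5) T1_c4 (nat_lit 13440) G_c4 W_c4 Y1_c4 Y0_c4 (nat_lit 1) (nat_lit 5) d5
    (FK4 (nat_lit 5) (nat_lit 5) a5 b5 B5 B5 nm5 nr5 R5) (nat_lit 0) fun A =>
    strict A fun A_c4 =>
  strict (red (nat_lit 13440) (nat_lit 1120) (nat_lit 12320) (nat_lit 3) A_c4
    (vecA (nat_lit 8) T2_c4 (Nat.pow (nat_lit 2) (nat_lit 1120)) (nat_lit 13440) L8
      (forms4 (nat_lit 8) B8 m8 nm8 nr8 R8) (nat_lit 0))) fun R_c4 =>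
  k (((c, R_c4), A_c2), A_c1)

lemma rowsC_ex {c : ℕ} {k : ((ℕ × ℕ) × ℕ) × ℕ → Bool}
    (h : rowsC (ds19.map fun δ => (δ, gg 19 T1_c1 1120 δ, LK.gs 19 T1_c1 δ))
      (ds19.map fun δ => (δ, gg 19 T1_c2 1120 δ, LK.gs 19 T1_c2 δ))
      (ds5.map fun δ => (δ, gg 5 T1_c4 13440 δ, LK.gs 5 T1_c4 δ)) c k = true) :
    ∃ y, k y = true := by
  unfold rowsC at h
  obtain ⟨_, _, _, _, _, _, _, _, h⟩ := wq_ex h
  obtain ⟨_, _, _, _, _, _, _, _, h⟩ := wq_ex h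
  obtain ⟨_, _, _, _, _, _, _, _, h⟩ := wq_ex h
  obtain ⟨_, h⟩ := rowA_ex (by norm_num) (by norm_num) h
  obtain ⟨_, h⟩ := rowA_ex (by norm_num) (by norm_num) h
  obtain ⟨_, h⟩ := rowA_ex (by norm_num) (by norm_num) h
  simp only [strict_eq] at h
  exact ⟨_, h⟩

/-- the value of the rows -/
def gC (a b t : ℤ) : ((ℕ × ℕ) × ℕ) × ℕ :=
  (((c760 a b t,
    red 13440 1120 12320 3 (RA 5 T1_c4 13440 W_c4 Y1_c4 Y0_c4 5 (zd a b t) (J4 a b t)) (VA 8 T2_c4 1120 13440 L8 (J4 a b t))),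
    RA 19 T1_c2 1120 W_c2 Y1_c2 Y0_c2 19 (zd a b t) (J4 a b t)),
    RA 19 T1_c1 1120 W_c1 Y1_c1 Y0_c1 19 (zd a b t) (J4 a b t))

/-- the conditions of the rows -/
def CC (a b t : ℤ) : Prop :=
  RC 19 T1_c1 1 19 (zd a b t) (J4 a b t) ∧
  RC 19 T1_c2 1 19 (zd a b t) (J4 a b t) ∧
  RC 5 T1_c4 1 5 (zd a b t) (J4 a b t)

lemma rowsC_eq {a b t : ℤ} {k : ((ℕ × ℕ) × ℕ) × ℕ → Bool}
    (h : rowsC (ds19.map fun δ => (δ, gg 19 T1_c1 1120 δ, LK.gs 19 T1_c1 δ))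
      (ds19.map fun δ => (δ, gg 19 T1_c2 1120 δ, LK.gs 19 T1_c2 δ))
      (ds5.map fun δ => (δ, gg 5 T1_c4 13440 δ, LK.gs 5 T1_c4 δ)) (c760 a b t) k = true) :
    k (gC a b t) = true ∧ CC a b t := by
  unfold rowsC at h
  rw [wq_eq (c760_8 a b t), wq_eq (c760_19 a b t), wq_eq (c760_5 a b t)] at h
  rw [FK4_eq (p := 5) (l := 5), FK4_eq (p := 19) (l := 19)] at h
  rw [forms4_eq (p := 8) (by norm_num), vecA_use] at h
  obtain ⟨h, C_c1⟩ := rowA_use (by norm_num) (by norm_num) h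
  obtain ⟨h, C_c2⟩ := rowA_use (by norm_num) (by norm_num) h
  obtain ⟨h, C_c4⟩ := rowA_use (by norm_num) (by norm_num) h
  simp only [strict_eq] at h
  exact ⟨h, C_c1, C_c2, C_c4⟩

/-- the check -/
def stC (lo n : ℕ) : Bool :=
  ggl (nat_lit 19) T1_c1 (nat_lit 1120) ds19 fun G_c1 =>
  ggl (nat_lit 19) T1_c2 (nat_lit 1120) ds19 fun G_c2 =>
  ggl (nat_lit 5) T1_c4 (nat_lit 13440) ds5 fun G_c4 =>
  ggl (nat_lit 13) T3_c1 (nat_lit 80) ds13 fun H_c1 =>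
  ggl (nat_lit 13) T3_c2 (nat_lit 80) ds13 fun H_c2 =>
  ggl (nat_lit 13) T3_c4 (nat_lit 80) ds13 fun H_c4 =>
  mapC (rowsC G_c1 G_c2 G_c4) S760 fun E =>
  allR (fun aa => strict (Nat.add aa lo) fun a => allR (fun b => allR (fun t =>
   withP4 (nat_lit 13) a b t fun B m nm nr R d =>
   @Bool.rec (fun _ => Bool) true (
    (fun F : List (ℕ × ℕ × ℕ) =>
     vecC (nat_lit 13) T3_c1 (nat_lit 80) (nat_lit 1120) H_c1 d F fun v => strict v fun v_c1 =>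
     vecC (nat_lit 13) T3_c2 (nat_lit 80) (nat_lit 1120) H_c2 d F fun v => strict v fun v_c2 =>
     vecC (nat_lit 13) T3_c4 (nat_lit 80) (nat_lit 1120) H_c4 d F fun v => strict v fun v_c4 =>
     strict (Nat.mul (nat_lit 438976000) (cdK (nat_lit 13) (a, b, t))) fun cn =>
     allQ (fun x => cond0 (ip (nat_lit 6859) (nat_lit 3280) x.2 v_c1)
       (cond0 (ip (nat_lit 6859) (nat_lit 3280) x.1.2 v_c2)
       (cond0 (ip (nat_lit 125) (nat_lit 3280) x.1.1.2 v_c4)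
       (strict (Nat.add x.1.1.1 cn) fun c => memB c S9880)))) E)
    (forms4 (nat_lit 13) B m nm nr R))
   (Nat.beq (Nat.mod (Nat.pow d (nat_lit 6)) (nat_lit 13)) (nat_lit 12)))
   (nat_lit 13)) (nat_lit 13)) n

theorem stC_spec {Q : ℕ} {a b t : ℤ} (S : Sys Q a b t) (hQ : 2470 ∣ Q) (hc : c760 a b t ∈ S760)
    {lo n : ℕ} (h : stC lo n = true) (ha : lo ≤ rs 13 a) (ha' : rs 13 a < lo + n) :
    c9880 a b t ∈ S9880 := by
  unfold stC at h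
  simp only [ggl_eq] at h
  obtain ⟨E, h, hE, C_c1, C_c2, C_c4⟩ :=
    mapC_mem hc (fun k' => rowsC_eq) (fun x _ k' => rowsC_ex) h
  have h := allR_spec h (rs 13 a - lo) (by omega)
  rw [strict_eq] at h
  have ea : Nat.add (rs 13 a - lo) lo = rs 13 a := by
    change rs 13 a - lo + lo = _
    omega
  rw [ea] at h
  have h := allR_spec h (rs 13 b) (rs_lt b)
  have h := allR_spec h (rs 13 t) (rs_lt t)
  rw [withP4_eq] at h
  have ii : Nat.beq (Nat.mod (Nat.pow (rs 13 (zd a b t)) (nat_lit 6)) (nat_lit 13)) (nat_lit 12)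
    = true := S.inr 13 (by norm_num) (by norm_num) (Dvd.dvd.trans (by norm_num) hQ)
  rw [ii] at h
  rw [forms4_eq (by norm_num)] at h
  obtain ⟨h, I_c1⟩ := vecC_use (by norm_num) h
  obtain ⟨h, I_c2⟩ := vecC_use (by norm_num) h
  obtain ⟨h, I_c4⟩ := vecC_use (by norm_num) h
  rw [strict_eq] at h
  have h := allQ_spec h _ hE
  have h := cond0_zero (zC_c1 S (Dvd.dvd.trans (by norm_num) hQ) C_c1 I_c1) h
  have h := cond0_zero (zC_c2 S (Dvd.dvd.trans (by norm_num) hQ) C_c2 I_c2) h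
  have h := cond0_zero (zC_c4 S (Dvd.dvd.trans (by norm_num) hQ) C_c4 I_c4) h
  rw [strict_eq] at h
  exact memB_spec h

end Pool.Agent.Lib_helper5.K4
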