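import Pool.Agent.Lib_helper5.K4.FnA

/-!
Stage E: classes modulo 1175720.
-/

namespace Pool.Agent.Lib_helper5.K4

open Finset LK Pool.Agent.LibH4 Pool.Agent.LibH4.Ker Pool.Agent.LibH4.T6 Pool.Agent.LibH4.KF

/-- the rows of a class -/
def rowsE (G_e1 G_e2 G_e3 G_e4 : List (ℕ × ℕ × ℕ)) (c : ℕ)
    (k : (((ℕ × ℕ) × ℕ) × ℕ) × ℕ → Bool) : Bool :=
  wq (nat_lit 8) (nat_lit 1) c fun _ _ B8 m8 nm8 nr8 R8 _ =>
  wq (nat_lit 19) (nat_lit 512) c fun a19 b19 B19 _ nm19 nr19 R19 d19 =>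
  wq (nat_lit 5) (nat_lit 3511808) c fun _ _ B5 _ nm5 nr5 R5 d5 =>
  wq (nat_lit 13) (nat_lit 438976000) c fun a13 b13 B13 _ _ _ _ _ =>
  wq (nat_lit 7) (nat_lit 964430272000) c fun _ _ B7 _ nm7 nr7 R7 d7 =>
  rowA (nat_lit 19) T1_e1 (nat_lit 1440) G_e1 W_e1 Y1_e1 Y0_e1 (nat_lit 1) (nat_lit 19) d19
    (FK4 (nat_lit 19) (nat_lit 19) a19 b19 B19 B19 nm19 nr19 R19) (nat_lit 0) fun A =>
    strict A fun A_e1 =>
  rowA (nat_lit 19) T1_e2 (nat_lit 1440) G_e2 W_e2 Y1_e2 Y0_e2 (nat_lit 0) (nat_lit 13) d19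
    (FK4 (nat_lit 19) (nat_lit 13) a13 b13 B13 B19 nm19 nr19 R19) (nat_lit 0) fun A =>
    strict A fun A_e2 =>
  rowA (nat_lit 7) T1_e3 (nat_lit 1440) G_e3 W_e3 Y1_e3 Y0_e3 (nat_lit 0) (nat_lit 13) d7
    (FK4 (nat_lit 7) (nat_lit 13) a13 b13 B13 B7 nm7 nr7 R7) (nat_lit 0) fun A =>
    strict A fun A_e3 =>
  rowA (nat_lit 5) T1_e4 (nat_lit 17280) G_e4 W_e4 Y1_e4 Y0_e4 (nat_lit 0) (nat_lit 13) d5
    (FK4 (nat_lit 5) (nat_lit 13) a13 b13 B13 B5 nm5 nr5 R5) (nat_lit 0) fun A =>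
    strict A fun A_e4 =>
  strict (red (nat_lit 17280) (nat_lit 1440) (nat_lit 15840) (nat_lit 3) A_e4
    (vecA (nat_lit 8) T2_e4 (Nat.pow (nat_lit 2) (nat_lit 1440)) (nat_lit 17280) L8
      (forms4 (nat_lit 8) B8 m8 nm8 nr8 R8) (nat_lit 0))) fun R_e4 =>
  k ((((c, R_e4), A_e3), A_e2), A_e1)

lemma rowsE_ex {c : ℕ} {k : (((ℕ × ℕ) × ℕ) × ℕ) × ℕ → Bool}
    (h : rowsE (ds19.map fun δ => (δ, gg 19 T1_e1 1440 δ, LK.gs 19 T1_e1 δ))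
      (ds19.map fun δ => (δ, gg 19 T1_e2 1440 δ, LK.gs 19 T1_e2 δ))
      (ds7.map fun δ => (δ, gg 7 T1_e3 1440 δ, LK.gs 7 T1_e3 δ))
      (ds5.map fun δ => (δ, gg 5 T1_e4 17280 δ, LK.gs 5 T1_e4 δ)) c k = true) :
    ∃ y, k y = true := by
  unfold rowsE at h
  obtain ⟨_, _, _, _, _, _, _, _, h⟩ := wq_ex h
  obtain ⟨_, _, _, _, _, _, _, _, h⟩ := wq_ex h
  obtain ⟨_, _, _, _, _, _, _, _, h⟩ := wq_ex h
  obtain ⟨_, _, _, _, _, _, _, _, h⟩ := wq_ex h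
  obtain ⟨_, _, _, _, _, _, _, _, h⟩ := wq_ex h
  obtain ⟨_, h⟩ := rowA_ex (by norm_num) (by norm_num) h
  obtain ⟨_, h⟩ := rowA_ex (by norm_num) (by norm_num) h
  obtain ⟨_, h⟩ := rowA_ex (by norm_num) (by norm_num) h
  obtain ⟨_, h⟩ := rowA_ex (by norm_num) (by norm_num) h
  simp only [strict_eq] at h
  exact ⟨_, h⟩

/-- the value of the rows -/
def gE (a b t : ℤ) : (((ℕ × ℕ) × ℕ) × ℕ) × ℕ :=
  ((((c69160 a b t,
    red 17280 1440 15840 3 (RA 5 T1_e4 17280 W_e4 Y1_e4 Y0_e4 13 (zd a b t) (J4 a b t)) (VA 8 T2_e4 1440 17280 L8 (J4 a b t))),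
    RA 7 T1_e3 1440 W_e3 Y1_e3 Y0_e3 13 (zd a b t) (J4 a b t)),
    RA 19 T1_e2 1440 W_e2 Y1_e2 Y0_e2 13 (zd a b t) (J4 a b t)),
    RA 19 T1_e1 1440 W_e1 Y1_e1 Y0_e1 19 (zd a b t) (J4 a b t))

/-- the conditions of the rows -/
def CE (a b t : ℤ) : Prop :=
  RC 19 T1_e1 1 19 (zd a b t) (J4 a b t) ∧
  RC 19 T1_e2 0 13 (zd a b t) (J4 a b t) ∧
  RC 7 T1_e3 0 13 (zd a b t) (J4 a b t) ∧
  RC 5 T1_e4 0 13 (zd a b t) (J4 a b t)

lemma rowsE_eq {a b t : ℤ} {k : (((ℕ × ℕ) × ℕ) × ℕ) × ℕ → Bool}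
    (h : rowsE (ds19.map fun δ => (δ, gg 19 T1_e1 1440 δ, LK.gs 19 T1_e1 δ))
      (ds19.map fun δ => (δ, gg 19 T1_e2 1440 δ, LK.gs 19 T1_e2 δ))
      (ds7.map fun δ => (δ, gg 7 T1_e3 1440 δ, LK.gs 7 T1_e3 δ))
      (ds5.map fun δ => (δ, gg 5 T1_e4 17280 δ, LK.gs 5 T1_e4 δ)) (c69160 a b t) k = true) :
    k (gE a b t) = true ∧ CE a b t := by
  unfold rowsE at h
  rw [wq_eq (c69160_8 a b t), wq_eq (c69160_19 a b t), wq_eq (c69160_5 a b t), wq_eq (c69160_13 a b t), wq_eq (c69160_7 a b t)] at h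
  rw [FK4_eq (p := 5) (l := 13), FK4_eq (p := 7) (l := 13), FK4_eq (p := 19) (l := 13), FK4_eq (p := 19) (l := 19)] at h
  rw [forms4_eq (p := 8) (by norm_num), vecA_use] at h
  obtain ⟨h, C_e1⟩ := rowA_use (by norm_num) (by norm_num) h
  obtain ⟨h, C_e2⟩ := rowA_use (by norm_num) (by norm_num) h
  obtain ⟨h, C_e3⟩ := rowA_use (by norm_num) (by norm_num) h
  obtain ⟨h, C_e4⟩ := rowA_use (by norm_num) (by norm_num) h
  simp only [strict_eq] at h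
  exact ⟨h, C_e1, C_e2, C_e3, C_e4⟩

/-- the check -/
def stE (lo n : ℕ) : Bool :=
  ggl (nat_lit 19) T1_e1 (nat_lit 1440) ds19 fun G_e1 =>
  ggl (nat_lit 19) T1_e2 (nat_lit 1440) ds19 fun G_e2 =>
  ggl (nat_lit 7) T1_e3 (nat_lit 1440) ds7 fun G_e3 =>
  ggl (nat_lit 5) T1_e4 (nat_lit 17280) ds5 fun G_e4 =>
  ggl (nat_lit 17) T3_e1 (nat_lit 80) ds17 fun H_e1 =>
  ggl (nat_lit 17) T3_e2 (nat_lit 80) ds17 fun H_e2 =>
  ggl (nat_lit 17) T3_e3 (nat_lit 80) ds17 fun H_e3 =>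
  ggl (nat_lit 17) T3_e4 (nat_lit 80) ds17 fun H_e4 =>
  mapC (rowsE G_e1 G_e2 G_e3 G_e4) S69160 fun E =>
  allR (fun aa => strict (Nat.add aa lo) fun a => allR (fun b => allR (fun t =>
   withP4 (nat_lit 17) a b t fun B m nm nr R d =>
   @Bool.rec (fun _ => Bool) true (
    (fun F : List (ℕ × ℕ × ℕ) =>
     vecC (nat_lit 17) T3_e1 (nat_lit 80) (nat_lit 1440) H_e1 d F fun v => strict v fun v_e1 =>
     vecC (nat_lit 17) T3_e2 (nat_lit 80) (nat_lit 1440) H_e2 d F fun v => strict v fun v_e2 =>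
     vecC (nat_lit 17) T3_e3 (nat_lit 80) (nat_lit 1440) H_e3 d F fun v => strict v fun v_e3 =>
     vecC (nat_lit 17) T3_e4 (nat_lit 80) (nat_lit 1440) H_e4 d F fun v => strict v fun v_e4 =>
     strict (Nat.mul (nat_lit 330799583296000) (cdK (nat_lit 17) (a, b, t))) fun cn =>
     allQ (fun x => cond0 (ip (nat_lit 6859) (nat_lit 4240) x.2 v_e1)
       (cond0 (ip (nat_lit 13) (nat_lit 4240) x.1.2 v_e2)
       (cond0 (ip (nat_lit 13) (nat_lit 4240) x.1.1.2 v_e3)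
       (cond0 (ip (nat_lit 13) (nat_lit 4240) x.1.1.1.2 v_e4)
       (strict (Nat.add x.1.1.1.1 cn) fun c => memB c S1175720))))) E)
    (forms4 (nat_lit 17) B m nm nr R))
   (Nat.beq (Nat.mod (Nat.pow d (nat_lit 8)) (nat_lit 17)) (nat_lit 16)))
   (nat_lit 17)) (nat_lit 17)) n

theorem stE_spec {Q : ℕ} {a b t : ℤ} (S : Sys Q a b t) (hQ : 293930 ∣ Q) (hc : c69160 a b t ∈ S69160)
    {lo n : ℕ} (h : stE lo n = true) (ha : lo ≤ rs 17 a) (ha' : rs 17 a < lo + n) :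
    c1175720 a b t ∈ S1175720 := by
  unfold stE at h
  simp only [ggl_eq] at h
  obtain ⟨E, h, hE, C_e1, C_e2, C_e3, C_e4⟩ :=
    mapC_mem hc (fun k' => rowsE_eq) (fun x _ k' => rowsE_ex) h
  have h := allR_spec h (rs 17 a - lo) (by omega)
  rw [strict_eq] at h
  have ea : Nat.add (rs 17 a - lo) lo = rs 17 a := by
    change rs 17 a - lo + lo = _
    omega
  rw [ea] at h
  have h := allR_spec h (rs 17 b) (rs_lt b)
  have h := allR_spec h (rs 17 t) (rs_lt t)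
  rw [withP4_eq] at h
  have ii : Nat.beq (Nat.mod (Nat.pow (rs 17 (zd a b t)) (nat_lit 8)) (nat_lit 17)) (nat_lit 16)
    = true := S.inr 17 (by norm_num) (by norm_num) (Dvd.dvd.trans (by norm_num) hQ)
  rw [ii] at h
  rw [forms4_eq (by norm_num)] at h
  obtain ⟨h, I_e1⟩ := vecC_use (by norm_num) h
  obtain ⟨h, I_e2⟩ := vecC_use (by norm_num) h
  obtain ⟨h, I_e3⟩ := vecC_use (by norm_num) h
  obtain ⟨h, I_e4⟩ := vecC_use (by norm_num) h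
  rw [strict_eq] at h
  have h := allQ_spec h _ hE
  have h := cond0_zero (zC_e1 S (Dvd.dvd.trans (by norm_num) hQ) C_e1 I_e1) h
  have h := cond0_zero (zC_e2 S (Dvd.dvd.trans (by norm_num) hQ) C_e2 I_e2) h
  have h := cond0_zero (zC_e3 S (Dvd.dvd.trans (by norm_num) hQ) C_e3 I_e3) h
  have h := cond0_zero (zC_e4 S (Dvd.dvd.trans (by norm_num) hQ) C_e4 I_e4) h
  rw [strict_eq] at h
  exact memB_spec h

end Pool.Agent.Lib_helper5.K4
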