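import Pool.Agent.Lib_helper5.K4.FnA

/-!
Stage F: classes modulo 3527160.
-/

namespace Pool.Agent.Lib_helper5.K4

open Finset LK Pool.Agent.LibH4 Pool.Agent.LibH4.Ker Pool.Agent.LibH4.T6 Pool.Agent.LibH4.KF

/-- the rows of a class -/
def rowsF (G_f1 G_f2 : List (ℕ × ℕ × ℕ)) (c : ℕ)
    (k : (ℕ × ℕ) × ℕ → Bool) : Bool :=
  wq (nat_lit 5) (nat_lit 3511808) c fun _ _ B5 m5 nm5 nr5 R5 d5 =>
  wq (nat_lit 13) (nat_lit 438976000) c fun a13 b13 B13 _ nm13 nr13 R13 d13 =>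
  wq (nat_lit 7) (nat_lit 964430272000) c fun _ _ B7 m7 nm7 nr7 R7 _ =>
  rowA (nat_lit 5) T1_f1 (nat_lit 2560) G_f1 W_f1 Y1_f1 Y0_f1 (nat_lit 0) (nat_lit 13) d5
    (FK4 (nat_lit 5) (nat_lit 13) a13 b13 B13 B5 nm5 nr5 R5) (nat_lit 0) fun A =>
    strict A fun A_f1 =>
  rowA (nat_lit 13) T1_f2 (nat_lit 1920) G_f2 W_f2 Y1_f2 Y0_f2 (nat_lit 1) (nat_lit 13) d13
    (FK4 (nat_lit 13) (nat_lit 13) a13 b13 B13 B13 nm13 nr13 R13) (nat_lit 0) fun A =>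
    strict A fun A_f2 =>
  strict (red (nat_lit 2560) (nat_lit 320) (nat_lit 2240) (nat_lit 3) A_f1
    (vecA (nat_lit 7) T2_f1 (Nat.pow (nat_lit 2) (nat_lit 320)) (nat_lit 2560) L7
      (forms4 (nat_lit 7) B7 m7 nm7 nr7 R7) (nat_lit 0))) fun R_f1 =>
  strict (red (nat_lit 1920) (nat_lit 320) (nat_lit 1600) (nat_lit 3) A_f2
    (vecA (nat_lit 5) T2_f2 (Nat.pow (nat_lit 2) (nat_lit 320)) (nat_lit 1920) L5
      (forms4 (nat_lit 5) B5 m5 nm5 nr5 R5) (nat_lit 0))) fun R_f2 =>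
  k ((c, R_f2), R_f1)

lemma rowsF_ex {c : ℕ} {k : (ℕ × ℕ) × ℕ → Bool}
    (h : rowsF (ds5.map fun δ => (δ, gg 5 T1_f1 2560 δ, LK.gs 5 T1_f1 δ))
      (ds13.map fun δ => (δ, gg 13 T1_f2 1920 δ, LK.gs 13 T1_f2 δ)) c k = true) :
    ∃ y, k y = true := by
  unfold rowsF at h
  obtain ⟨_, _, _, _, _, _, _, _, h⟩ := wq_ex h
  obtain ⟨_, _, _, _, _, _, _, _, h⟩ := wq_ex h
  obtain ⟨_, _, _, _, _, _, _, _, h⟩ := wq_ex h
  obtain ⟨_, h⟩ := rowA_ex (by norm_num) (by norm_num) h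
  obtain ⟨_, h⟩ := rowA_ex (by norm_num) (by norm_num) h
  simp only [strict_eq] at h
  exact ⟨_, h⟩

/-- the value of the rows -/
def gF (a b t : ℤ) : (ℕ × ℕ) × ℕ :=
  ((c1175720 a b t,
    red 1920 320 1600 3 (RA 13 T1_f2 1920 W_f2 Y1_f2 Y0_f2 13 (zd a b t) (J4 a b t)) (VA 5 T2_f2 320 1920 L5 (J4 a b t))),
    red 2560 320 2240 3 (RA 5 T1_f1 2560 W_f1 Y1_f1 Y0_f1 13 (zd a b t) (J4 a b t)) (VA 7 T2_f1 320 2560 L7 (J4 a b t)))

/-- the conditions of the rows -/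
def CF (a b t : ℤ) : Prop :=
  RC 5 T1_f1 0 13 (zd a b t) (J4 a b t) ∧
  RC 13 T1_f2 1 13 (zd a b t) (J4 a b t)

lemma rowsF_eq {a b t : ℤ} {k : (ℕ × ℕ) × ℕ → Bool}
    (h : rowsF (ds5.map fun δ => (δ, gg 5 T1_f1 2560 δ, LK.gs 5 T1_f1 δ))
      (ds13.map fun δ => (δ, gg 13 T1_f2 1920 δ, LK.gs 13 T1_f2 δ)) (c1175720 a b t) k = true) :
    k (gF a b t) = true ∧ CF a b t := by
  unfold rowsF at h
  rw [wq_eq (c1175720_5 a b t), wq_eq (c1175720_13 a b t), wq_eq (c1175720_7 a b t)] at h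
  rw [FK4_eq (p := 5) (l := 13), FK4_eq (p := 13) (l := 13)] at h
  rw [forms4_eq (p := 5) (by norm_num), forms4_eq (p := 7) (by norm_num), vecA_use, vecA_use] at h
  obtain ⟨h, C_f1⟩ := rowA_use (by norm_num) (by norm_num) h
  obtain ⟨h, C_f2⟩ := rowA_use (by norm_num) (by norm_num) h
  simp only [strict_eq] at h
  exact ⟨h, C_f1, C_f2⟩

/-- the check -/
def stF (lo n : ℕ) : Bool :=
  ggl (nat_lit 5) T1_f1 (nat_lit 2560) ds5 fun G_f1 =>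
  ggl (nat_lit 13) T1_f2 (nat_lit 1920) ds13 fun G_f2 =>
  ggl (nat_lit 3) T3_f1 (nat_lit 80) ds3 fun H_f1 =>
  mapC (rowsF G_f1 G_f2) S1175720 fun E =>
  allR (fun aa => strict (Nat.add aa lo) fun a => allR (fun b => allR (fun t =>
   withP4 (nat_lit 3) a b t fun B m nm nr R d =>
   @Bool.rec (fun _ => Bool) true (
    (fun F : List (ℕ × ℕ × ℕ) =>
     vecC (nat_lit 3) T3_f1 (nat_lit 80) (nat_lit 320) H_f1 d F fun v => strict v fun v_f1 =>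
     strict (vecB (nat_lit 3) T3_f2 (nat_lit 1208925819614629174706176) (nat_lit 320) L3 F) fun v_f2 =>
     strict (Nat.mul (nat_lit 1625218352733248000) (cdK (nat_lit 3) (a, b, t))) fun cn =>
     allQ (fun x => cond0 (ip (nat_lit 13) (nat_lit 880) x.2 v_f1)
       (cond0 (ip (nat_lit 2197) (nat_lit 880) x.1.2 v_f2)
       (strict (Nat.add x.1.1 cn) fun c => memB c S3527160))) E)
    (forms4 (nat_lit 3) B m nm nr R))
   (Nat.beq (Nat.mod (Nat.pow d (nat_lit 1)) (nat_lit 3)) (nat_lit 2)))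
   (nat_lit 3)) (nat_lit 3)) n

theorem stF_spec {Q : ℕ} {a b t : ℤ} (S : Sys Q a b t) (hQ : 881790 ∣ Q) (hc : c1175720 a b t ∈ S1175720)
    {lo n : ℕ} (h : stF lo n = true) (ha : lo ≤ rs 3 a) (ha' : rs 3 a < lo + n) :
    c3527160 a b t ∈ S3527160 := by
  unfold stF at h
  simp only [ggl_eq] at h
  obtain ⟨E, h, hE, C_f1, C_f2⟩ :=
    mapC_mem hc (fun k' => rowsF_eq) (fun x _ k' => rowsF_ex) h
  have h := allR_spec h (rs 3 a - lo) (by omega)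
  rw [strict_eq] at h
  have ea : Nat.add (rs 3 a - lo) lo = rs 3 a := by
    change rs 3 a - lo + lo = _
    omega
  rw [ea] at h
  have h := allR_spec h (rs 3 b) (rs_lt b)
  have h := allR_spec h (rs 3 t) (rs_lt t)
  rw [withP4_eq] at h
  have ii : Nat.beq (Nat.mod (Nat.pow (rs 3 (zd a b t)) (nat_lit 1)) (nat_lit 3)) (nat_lit 2)
    = true := S.inr 3 (by norm_num) (by norm_num) (Dvd.dvd.trans (by norm_num) hQ)
  rw [ii] at h
  rw [forms4_eq (by norm_num)] at h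
  obtain ⟨h, I_f1⟩ := vecC_use (by norm_num) h
  rw [strict_eq, vecB_use] at h
  rw [strict_eq] at h
  have h := allQ_spec h _ hE
  have h := cond0_zero (zC_f1 S (Dvd.dvd.trans (by norm_num) hQ) C_f1 I_f1) h
  have h := cond0_zero (zB_f2 S (Dvd.dvd.trans (by norm_num) hQ) C_f2) h
  rw [strict_eq] at h
  exact memB_spec h

end Pool.Agent.Lib_helper5.K4
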