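import Pool.Agent.Lib_helper5.K4.FnA

/-!
Stage G: no class is left.
-/

namespace Pool.Agent.Lib_helper5.K4

open Finset LK Pool.Agent.LibH4 Pool.Agent.LibH4.Ker Pool.Agent.LibH4.T6 Pool.Agent.LibH4.KF

/-- the rows of a class -/
def rowsG (G_g1 G_g2 G_g3 G_g4 : List (ℕ × ℕ × ℕ)) (c : ℕ)
    (k : (((ℕ × ℕ) × ℕ) × ℕ) × ℕ → Bool) : Bool :=
  wq (nat_lit 8) (nat_lit 1) c fun _ _ B8 m8 nm8 nr8 R8 _ =>
  wq (nat_lit 5) (nat_lit 3511808) c fun a5 b5 B5 _ _ _ _ _ =>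
  wq (nat_lit 13) (nat_lit 438976000) c fun a13 b13 B13 _ nm13 nr13 R13 d13 =>
  wq (nat_lit 7) (nat_lit 964430272000) c fun a7 b7 B7 _ nm7 nr7 R7 d7 =>
  wq (nat_lit 17) (nat_lit 330799583296000) c fun a17 b17 B17 _ nm17 nr17 R17 d17 =>
  rowA (nat_lit 7) T1_g1 (nat_lit 11520) G_g1 W_g1 Y1_g1 Y0_g1 (nat_lit 0) (nat_lit 13) d7
    (FK4 (nat_lit 7) (nat_lit 13) a13 b13 B13 B7 nm7 nr7 R7) (nat_lit 0) fun A =>
    strict A fun A_g1 =>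
  rowA (nat_lit 13) T1_g2 (nat_lit 960) G_g2 W_g2 Y1_g2 Y0_g2 (nat_lit 0) (nat_lit 5) d13
    (FK4 (nat_lit 13) (nat_lit 5) a5 b5 B5 B13 nm13 nr13 R13) (nat_lit 0) fun A =>
    strict A fun A_g2 =>
  rowA (nat_lit 13) T1_g3 (nat_lit 960) G_g3 W_g3 Y1_g3 Y0_g3 (nat_lit 0) (nat_lit 7) d13
    (FK4 (nat_lit 13) (nat_lit 7) a7 b7 B7 B13 nm13 nr13 R13) (nat_lit 0) fun A =>
    strict A fun A_g3 =>
  rowA (nat_lit 17) T1_g4 (nat_lit 960) G_g4 W_g4 Y1_g4 Y0_g4 (nat_lit 1) (nat_lit 17) d17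
    (FK4 (nat_lit 17) (nat_lit 17) a17 b17 B17 B17 nm17 nr17 R17) (nat_lit 0) fun A =>
    strict A fun A_g4 =>
  strict (red (nat_lit 11520) (nat_lit 960) (nat_lit 10560) (nat_lit 3) A_g1
    (vecA (nat_lit 8) T2_g1 (Nat.pow (nat_lit 2) (nat_lit 960)) (nat_lit 11520) L8
      (forms4 (nat_lit 8) B8 m8 nm8 nr8 R8) (nat_lit 0))) fun R_g1 =>
  k ((((c, A_g4), A_g3), A_g2), R_g1)

lemma rowsG_ex {c : ℕ} {k : (((ℕ × ℕ) × ℕ) × ℕ) × ℕ → Bool}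
    (h : rowsG (ds7.map fun δ => (δ, gg 7 T1_g1 11520 δ, LK.gs 7 T1_g1 δ))
      (ds13.map fun δ => (δ, gg 13 T1_g2 960 δ, LK.gs 13 T1_g2 δ))
      (ds13.map fun δ => (δ, gg 13 T1_g3 960 δ, LK.gs 13 T1_g3 δ))
      (ds17.map fun δ => (δ, gg 17 T1_g4 960 δ, LK.gs 17 T1_g4 δ)) c k = true) :
    ∃ y, k y = true := by
  unfold rowsG at h
  obtain ⟨_, _, _, _, _, _, _, _, h⟩ := wq_ex h
  obtain ⟨_, _, _, _, _, _, _, _, h⟩ := wq_ex h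
  obtain ⟨_, _, _, _, _, _, _, _, h⟩ := wq_ex h
  obtain ⟨_, _, _, _, _, _, _, _, h⟩ := wq_ex h
  obtain ⟨_, _, _, _, _, _, _, _, h⟩ := wq_ex h
  obtain ⟨_, h⟩ := rowA_ex (by norm_num) (by norm_num) h
  obtain ⟨_, h⟩ := rowA_ex (by norm_num) (by norm_num) h
  obtain ⟨_, h⟩ := rowA_ex (by norm_num) (by norm_num) h
  obtain ⟨_, h⟩ := rowA_ex (by norm_num) (by norm_num) h
  simp only [strict_eq] at h
  exact ⟨_, h⟩

/-- the value of the rows -/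
def gG (a b t : ℤ) : (((ℕ × ℕ) × ℕ) × ℕ) × ℕ :=
  ((((c3527160 a b t,
    RA 17 T1_g4 960 W_g4 Y1_g4 Y0_g4 17 (zd a b t) (J4 a b t)),
    RA 13 T1_g3 960 W_g3 Y1_g3 Y0_g3 7 (zd a b t) (J4 a b t)),
    RA 13 T1_g2 960 W_g2 Y1_g2 Y0_g2 5 (zd a b t) (J4 a b t)),
    red 11520 960 10560 3 (RA 7 T1_g1 11520 W_g1 Y1_g1 Y0_g1 13 (zd a b t) (J4 a b t)) (VA 8 T2_g1 960 11520 L8 (J4 a b t)))

/-- the conditions of the rows -/
def CG (a b t : ℤ) : Prop :=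
  RC 7 T1_g1 0 13 (zd a b t) (J4 a b t) ∧
  RC 13 T1_g2 0 5 (zd a b t) (J4 a b t) ∧
  RC 13 T1_g3 0 7 (zd a b t) (J4 a b t) ∧
  RC 17 T1_g4 1 17 (zd a b t) (J4 a b t)

lemma rowsG_eq {a b t : ℤ} {k : (((ℕ × ℕ) × ℕ) × ℕ) × ℕ → Bool}
    (h : rowsG (ds7.map fun δ => (δ, gg 7 T1_g1 11520 δ, LK.gs 7 T1_g1 δ))
      (ds13.map fun δ => (δ, gg 13 T1_g2 960 δ, LK.gs 13 T1_g2 δ))
      (ds13.map fun δ => (δ, gg 13 T1_g3 960 δ, LK.gs 13 T1_g3 δ))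
      (ds17.map fun δ => (δ, gg 17 T1_g4 960 δ, LK.gs 17 T1_g4 δ)) (c3527160 a b t) k = true) :
    k (gG a b t) = true ∧ CG a b t := by
  unfold rowsG at h
  rw [wq_eq (c3527160_8 a b t), wq_eq (c3527160_5 a b t), wq_eq (c3527160_13 a b t), wq_eq (c3527160_7 a b t), wq_eq (c3527160_17 a b t)] at h
  rw [FK4_eq (p := 7) (l := 13), FK4_eq (p := 13) (l := 5), FK4_eq (p := 13) (l := 7), FK4_eq (p := 17) (l := 17)] at h
  rw [forms4_eq (p := 8) (by norm_num), vecA_use] at h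
  obtain ⟨h, C_g1⟩ := rowA_use (by norm_num) (by norm_num) h
  obtain ⟨h, C_g2⟩ := rowA_use (by norm_num) (by norm_num) h
  obtain ⟨h, C_g3⟩ := rowA_use (by norm_num) (by norm_num) h
  obtain ⟨h, C_g4⟩ := rowA_use (by norm_num) (by norm_num) h
  simp only [strict_eq] at h
  exact ⟨h, C_g1, C_g2, C_g3, C_g4⟩

/-- the check -/
def stG (lo n : ℕ) : Bool :=
  ggl (nat_lit 7) T1_g1 (nat_lit 11520) ds7 fun G_g1 =>
  ggl (nat_lit 13) T1_g2 (nat_lit 960) ds13 fun G_g2 =>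
  ggl (nat_lit 13) T1_g3 (nat_lit 960) ds13 fun G_g3 =>
  ggl (nat_lit 17) T1_g4 (nat_lit 960) ds17 fun G_g4 =>
  ggl (nat_lit 11) T3_g1 (nat_lit 80) ds11 fun H_g1 =>
  ggl (nat_lit 11) T3_g2 (nat_lit 80) ds11 fun H_g2 =>
  ggl (nat_lit 11) T3_g3 (nat_lit 80) ds11 fun H_g3 =>
  ggl (nat_lit 11) T3_g4 (nat_lit 80) ds11 fun H_g4 =>
  mapC (rowsG G_g1 G_g2 G_g3 G_g4) S3527160 fun E =>
  allR (fun aa => strict (Nat.add aa lo) fun a => allR (fun b => allR (fun t =>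
   withP4 (nat_lit 11) a b t fun B m nm nr R d =>
   @Bool.rec (fun _ => Bool) true (
    (fun F : List (ℕ × ℕ × ℕ) =>
     vecC (nat_lit 11) T3_g1 (nat_lit 80) (nat_lit 960) H_g1 d F fun v => strict v fun v_g1 =>
     vecC (nat_lit 11) T3_g2 (nat_lit 80) (nat_lit 960) H_g2 d F fun v => strict v fun v_g2 =>
     vecC (nat_lit 11) T3_g3 (nat_lit 80) (nat_lit 960) H_g3 d F fun v => strict v fun v_g3 =>
     vecC (nat_lit 11) T3_g4 (nat_lit 80) (nat_lit 960) H_g4 d F fun v => strict v fun v_g4 =>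
     strict (Nat.mul (nat_lit 43880895523797696000) (cdK (nat_lit 11) (a, b, t))) fun cn =>
     allQ (fun x => cond0 (ip (nat_lit 13) (nat_lit 2800) x.2 v_g1)
       (cond0 (ip (nat_lit 5) (nat_lit 2800) x.1.2 v_g2)
       (cond0 (ip (nat_lit 7) (nat_lit 2800) x.1.1.2 v_g3)
       (cond0 (ip (nat_lit 4913) (nat_lit 2800) x.1.1.1.2 v_g4)
       (@Bool.rec (fun _ => Bool) false false (Nat.beq x.1.1.1.1 cn)))))) E)
    (forms4 (nat_lit 11) B m nm nr R))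
   (Nat.beq (Nat.mod (Nat.pow d (nat_lit 5)) (nat_lit 11)) (nat_lit 10)))
   (nat_lit 11)) (nat_lit 11)) n

theorem stG_spec {Q : ℕ} {a b t : ℤ} (S : Sys Q a b t) (hQ : 9699690 ∣ Q) (hc : c3527160 a b t ∈ S3527160)
    {lo n : ℕ} (h : stG lo n = true) (ha : lo ≤ rs 11 a) (ha' : rs 11 a < lo + n) :
    False := by
  unfold stG at h
  simp only [ggl_eq] at h
  obtain ⟨E, h, hE, C_g1, C_g2, C_g3, C_g4⟩ :=
    mapC_mem hc (fun k' => rowsG_eq) (fun x _ k' => rowsG_ex) h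
  have h := allR_spec h (rs 11 a - lo) (by omega)
  rw [strict_eq] at h
  have ea : Nat.add (rs 11 a - lo) lo = rs 11 a := by
    change rs 11 a - lo + lo = _
    omega
  rw [ea] at h
  have h := allR_spec h (rs 11 b) (rs_lt b)
  have h := allR_spec h (rs 11 t) (rs_lt t)
  rw [withP4_eq] at h
  have ii : Nat.beq (Nat.mod (Nat.pow (rs 11 (zd a b t)) (nat_lit 5)) (nat_lit 11)) (nat_lit 10)
    = true := S.inr 11 (by norm_num) (by norm_num) (Dvd.dvd.trans (by norm_num) hQ)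
  rw [ii] at h
  rw [forms4_eq (by norm_num)] at h
  obtain ⟨h, I_g1⟩ := vecC_use (by norm_num) h
  obtain ⟨h, I_g2⟩ := vecC_use (by norm_num) h
  obtain ⟨h, I_g3⟩ := vecC_use (by norm_num) h
  obtain ⟨h, I_g4⟩ := vecC_use (by norm_num) h
  rw [strict_eq] at h
  have h := allQ_spec h _ hE
  have h := cond0_zero (zC_g1 S (Dvd.dvd.trans (by norm_num) hQ) C_g1 I_g1) h
  have h := cond0_zero (zC_g2 S (Dvd.dvd.trans (by norm_num) hQ) C_g2 I_g2) h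
  have h := cond0_zero (zC_g3 S (Dvd.dvd.trans (by norm_num) hQ) C_g3 I_g3) h
  have h := cond0_zero (zC_g4 S (Dvd.dvd.trans (by norm_num) hQ) C_g4 I_g4) h
  cases hb : Nat.beq (gG a b t).1.1.1.1 (Nat.mul (nat_lit 43880895523797696000) (cdK (nat_lit 11) (rs 11 a, rs 11 b, rs 11 t))) <;>
    rw [hb] at h <;> exact absurd h (by simp)

end Pool.Agent.Lib_helper5.K4
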