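import Pool.Agent.Lib_helper5.LKG
import Pool.Agent.Lib_helper5.LKUse

/-! generated: representatives and non residues -/

namespace Pool.Agent.Lib_helper5.K4

open LK Pool.Agent.LibH4 Pool.Agent.LibH4.Ker

/-- non residues -/
def ds3 : List ℕ := [nat_lit 2]
/-- non residues -/
def ds5 : List ℕ := [nat_lit 2, nat_lit 3]
/-- non residues -/
def ds7 : List ℕ := [nat_lit 3, nat_lit 5, nat_lit 6]
/-- non residues -/
def ds11 : List ℕ := [nat_lit 2, nat_lit 6, nat_lit 7, nat_lit 8, nat_lit 10]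
/-- non residues -/
def ds13 : List ℕ := [nat_lit 2, nat_lit 5, nat_lit 6, nat_lit 7, nat_lit 8, nat_lit 11]
/-- non residues -/
def ds17 : List ℕ := [nat_lit 3, nat_lit 5, nat_lit 6, nat_lit 7, nat_lit 10, nat_lit 11, nat_lit 12, nat_lit 14]
/-- non residues -/
def ds19 : List ℕ := [nat_lit 2, nat_lit 3, nat_lit 8, nat_lit 10, nat_lit 12, nat_lit 13, nat_lit 14, nat_lit 15, nat_lit 18]

/-- representatives of the projective line -/
def L3 : List (ℕ × ℕ) := [(nat_lit 1, nat_lit 0), (nat_lit 1, nat_lit 1), (nat_lit 1, nat_lit 2), (nat_lit 0, nat_lit 1)]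

lemma L3_eq : L3 = PL 3 := by decide

/-- representatives of the projective line -/
def L8 : List (ℕ × ℕ) := [(nat_lit 1, nat_lit 0), (nat_lit 1, nat_lit 1), (nat_lit 1, nat_lit 2), (nat_lit 1, nat_lit 3), (nat_lit 1, nat_lit 4), (nat_lit 1, nat_lit 5), (nat_lit 1, nat_lit 6), (nat_lit 1, nat_lit 7), (nat_lit 0, nat_lit 1), (nat_lit 2, nat_lit 1), (nat_lit 4, nat_lit 1), (nat_lit 6, nat_lit 1)]

lemma isP1_8 : IsP1 8 L8 := by
  have := isP1_prime_pow (p := 2) (k := 3) (by norm_num) (by norm_num)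
  have e : p1List 2 (2 ^ 3) = L8 := by decide +kernel
  rw [e] at this
  exact this

/-- representatives of the projective line -/
def L40 : List (ℕ × ℕ) := [(nat_lit 1, nat_lit 0), (nat_lit 1, nat_lit 16), (nat_lit 1, nat_lit 32), (nat_lit 1, nat_lit 8), (nat_lit 1, nat_lit 24), (nat_lit 25, nat_lit 16), (nat_lit 1, nat_lit 25), (nat_lit 1, nat_lit 1), (nat_lit 1, nat_lit 17), (nat_lit 1, nat_lit 33), (nat_lit 1, nat_lit 9), (nat_lit 25, nat_lit 1), (nat_lit 1, nat_lit 10), (nat_lit 1, nat_lit 26), (nat_lit 1, nat_lit 2), (nat_lit 1, nat_lit 18), (nat_lit 1, nat_lit 34), (nat_lit 25, nat_lit 26), (nat_lit 1, nat_lit 35), (nat_lit 1, nat_lit 11), (nat_lit 1, nat_lit 27), (nat_lit 1, nat_lit 3), (nat_lit 1, nat_lit 19), (nat_lit 25, nat_lit 11), (nat_lit 1, nat_lit 20), (nat_lit 1, nat_lit 36), (nat_lit 1, nat_lit 12), (nat_lit 1, nat_lit 28), (nat_lit 1, nat_lit 4), (nat_lit 25, nat_lit 36), (nat_lit 1, nat_lit 5), (nat_lit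 1, nat_lit 21), (nat_lit 1, nat_lit 37), (nat_lit 1, nat_lit 13), (nat_lit 1, nat_lit 29), (nat_lit 25, nat_lit 21), (nat_lit 1, nat_lit 30), (nat_lit 1, nat_lit 6), (nat_lit 1, nat_lit 22), (nat_lit 1, nat_lit 38), (nat_lit 1, nat_lit 14), (nat_lit 25, nat_lit 6), (nat_lit 1, nat_lit 15), (nat_lit 1, nat_lit 31), (nat_lit 1, nat_lit 7), (nat_lit 1, nat_lit 23), (nat_lit 1, nat_lit 39), (nat_lit 25, nat_lit 31), (nat_lit 16, nat_lit 25), (nat_lit 16, nat_lit 1), (nat_lit 16, nat_lit 17), (nat_lit 16, nat_lit 33), (nat_lit 16, nat_lit 9), (nat_lit 0, nat_lit 1), (nat_lit 26, nat_lit 25), (nat_lit 26, nat_lit 1), (nat_lit 26, nat_lit 17), (nat_lit 26, nat_lit 33), (nat_lit 26, nat_lit 9), (nat_lit 10, nat_lit 1), (nat_lit 36, nat_lit 25), (nat_lit 36, nat_lit 1), (nat_lit 36, nat_lit 17), (nat_lit 36, nat_lit 33), (nat_lit 36, nat_lit 9), (nat_lit 20, nat_lit 1), (nat_lit 6, nat_lit 25), (nat_lit 6, nat_lit 1), (nat_lit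 6, nat_lit 17), (nat_lit 6, nat_lit 33), (nat_lit 6, nat_lit 9), (nat_lit 30, nat_lit 1)]

lemma isP1_40 : IsP1 40 L40 := by
  have h5 : IsP1 5 L5 := L5_eq ▸ isP1_PL (by norm_num)
  have := isP1_mul (n1 := 8) (n2 := 5) (e1 := 25) (e2 := 16) (by norm_num) (by decide) (by decide)
    (by decide) (by decide) isP1_8 h5
  exact isP1_congr (n := 40) (by decide +kernel) this

end Pool.Agent.Lib_helper5.K4
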